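import Mathlib

/-!
# The robber locating game: definitions, belief sets, and the strategy/belief equivalence
-/

namespace E8H5Loc

open Set

universe u

variable {V : Type u}

/-- A robber trajectory on `G`: `r t` is the vertex occupied when the `t`-th probe is made
(`t = 0, 1, 2, …`); between two probes the robber stays put or moves along an edge. -/
def IsTraj (G : SimpleGraph V) (r : ℕ → V) : Prop :=
  ∀ t, r (t + 1) = r t ∨ G.Adj (r t) (r (t + 1))

/-- A cop strategy assigns to the list of answers received so far the next probe.
`hist G σ r t` is the list of the first `t` answers when the cop follows `σ` and the robber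
follows `r`; an answer is the graph distance (`⊤` for different components). -/
noncomputable def hist (G : SimpleGraph V) (σ : List ℕ∞ → V) (r : ℕ → V) : ℕ → List ℕ∞
  | 0 => []
  | t + 1 => hist G σ r t ++ [G.edist (σ (hist G σ r t)) (r t)]

/-- `G` is locatable: for some strategy `σ` and some bound `T`, against every robber trajectory
there is a round `t < T` after whose probe the answers determine the robber's current vertex. -/
def Locatable (G : SimpleGraph V) : Prop :=
  ∃ (σ : List ℕ∞ → V) (T : ℕ), ∀ r, IsTraj G r → ∃ t, t < T ∧
    ∀ r', IsTraj G r' → hist G σ r' (t + 1) = hist G σ r (t + 1) → r' t = r t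

/-- The graph `G^{1/2}`: every edge of `G` is subdivided once.  Its vertices are the vertices of
`G` (`Sum.inl v`) and one new vertex for each edge (`Sum.inr e`), joined to the two ends
of `e`. -/
def Half (G : SimpleGraph V) : SimpleGraph (V ⊕ G.edgeSet) where
  Adj a b := match a, b with
    | Sum.inl v, Sum.inr e => v ∈ (e : Sym2 V)
    | Sum.inr e, Sum.inl v => v ∈ (e : Sym2 V)
    | _, _ => False
  symm := ⟨by
    intro a b h
    cases a <;> cases b <;> exact h⟩
  loopless := ⟨by
    intro a h
    cases a <;> exact h⟩

/-! ### Belief sets -/

/-- Positions reachable in one robber move from the set `X`. -/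
def nbhd (G : SimpleGraph V) (X : Set V) : Set V := {y | ∃ x ∈ X, y = x ∨ G.Adj x y}

/-- From the set `X` of possible positions, the cop can locate the robber in `n` rounds. -/
def Win (G : SimpleGraph V) : ℕ → Set V → Prop
  | 0, X => X.Subsingleton
  | n + 1, X => X.Subsingleton ∨ ∃ v, ∀ a : ℕ∞, Win G n (nbhd G X ∩ {y | G.edist v y = a})

theorem nbhd_mono (G : SimpleGraph V) {X Y : Set V} (h : X ⊆ Y) : nbhd G X ⊆ nbhd G Y := by
  rintro y ⟨x, hx, hy⟩
  exact ⟨x, h hx, hy⟩

theorem subset_nbhd (G : SimpleGraph V) (X : Set V) : X ⊆ nbhd G X :=
  fun x hx => ⟨x, hx, Or.inl rfl⟩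

theorem Win.of_subsingleton {G : SimpleGraph V} {X : Set V} (h : X.Subsingleton) :
    ∀ n, Win G n X
  | 0 => h
  | _ + 1 => Or.inl h

theorem Win.anti {G : SimpleGraph V} : ∀ {n : ℕ} {X Y : Set V}, X ⊆ Y → Win G n Y → Win G n X
  | 0, _, _, h, hY => Set.Subsingleton.anti hY h
  | n + 1, X, Y, h, hY => by
    rcases hY with hY | ⟨v, hv⟩
    · exact Or.inl (hY.anti h)
    · exact Or.inr ⟨v, fun a => Win.anti (Set.inter_subset_inter_left _ (nbhd_mono G h)) (hv a)⟩

theorem Win.succ {G : SimpleGraph V} : ∀ {n : ℕ} {X : Set V}, Win G n X → Win G (n + 1) X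
  | 0, _, h => Or.inl h
  | n + 1, X, h => by
    rcases h with h | ⟨v, hv⟩
    · exact Or.inl h
    · exact Or.inr ⟨v, fun a => Win.succ (hv a)⟩

theorem Win.mono {G : SimpleGraph V} {m n : ℕ} (h : m ≤ n) {X : Set V} (hX : Win G m X) :
    Win G n X := by
  induction h with
  | refl => exact hX
  | step _ ih => exact ih.succ

/-! ### From strategies to belief sets and back -/

theorem hist_length (G : SimpleGraph V) (σ : List ℕ∞ → V) (r : ℕ → V) (t : ℕ) :
    (hist G σ r t).length = t := by
  induction t with
  | zero => rfl
  | succ t ih => simp [hist, ih]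

theorem hist_congr (G : SimpleGraph V) (σ : List ℕ∞ → V) {r r' : ℕ → V} (t : ℕ)
    (h : ∀ i < t, r' i = r i) : hist G σ r' t = hist G σ r t := by
  induction t with
  | zero => rfl
  | succ t ih =>
    have h1 := ih (fun i hi => h i (by omega))
    simp only [hist, h1, h t (by omega)]

theorem hist_prefix (G : SimpleGraph V) (σ : List ℕ∞ → V) {r r' : ℕ → V} {s t : ℕ} (hst : s ≤ t)
    (h : hist G σ r' t = hist G σ r t) : hist G σ r' s = hist G σ r s := by
  induction t with
  | zero =>
    obtain rfl : s = 0 := by omega
    rfl
  | succ t ih =>
    rcases Nat.lt_or_ge s (t + 1) with h1 | h1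
    · refine ih (by omega) ?_
      simp only [hist] at h
      exact (List.append_inj h (by rw [hist_length, hist_length])).1
    · obtain rfl : s = t + 1 := by omega
      exact h

/-- Set of possible current positions after the (nonempty) answer list of length `t`. -/
def Reach (G : SimpleGraph V) (σ : List ℕ∞ → V) (t : ℕ) (h : List ℕ∞) : Set V :=
  match t with
  | 0 => Set.univ
  | s + 1 => {x | ∃ r, IsTraj G r ∧ hist G σ r (s + 1) = h ∧ x = r s}

theorem reach_step (G : SimpleGraph V) (σ : List ℕ∞ → V) (t : ℕ) (h : List ℕ∞)
    (hr : t = 0 → h = []) (a : ℕ∞) :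
    nbhd G (Reach G σ t h) ∩ {y | G.edist (σ h) y = a} ⊆ Reach G σ (t + 1) (h ++ [a]) := by
  rintro y ⟨⟨x, hx, hxy⟩, hy⟩
  cases t with
  | zero =>
    obtain rfl := hr rfl
    refine ⟨fun _ => y, fun _ => Or.inl rfl, ?_, rfl⟩
    simp only [hist, List.nil_append]
    rw [show G.edist (σ []) y = a from hy]
  | succ s =>
    obtain ⟨r, hrt, hh, rfl⟩ := hx
    refine ⟨fun i => if i ≤ s then r i else y, ?_, ?_, by simp⟩
    · intro i
      by_cases h1 : i + 1 ≤ s
      · have h2 : i ≤ s := by omega
        simp only [h1, h2, if_true]
        exact hrt i
      · by_cases h2 : i ≤ s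
        · obtain rfl : i = s := by omega
          simp only [le_refl, if_true, h1, if_false]
          exact hxy
        · simp only [h1, h2, if_false]
          exact Or.inl trivial
    · have h3 : hist G σ (fun i => if i ≤ s then r i else y) (s + 1) = h := by
        rw [← hh]
        refine hist_congr G σ (s + 1) (fun i hi => ?_)
        have : i ≤ s := by omega
        simp [this]
      rw [hist, h3]
      simp only [Nat.not_succ_le_self, if_false]
      rw [show G.edist (σ h) y = a from hy]

theorem Locatable.exists_win {G : SimpleGraph V} (hG : Locatable G) :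
    ∃ n, Win G n (Set.univ : Set V) := by
  obtain ⟨σ, T, hT⟩ := hG
  have key : ∀ m t : ℕ, m + t = T → ∀ h : List ℕ∞, h.length = t →
      (∀ s, s < t → ¬ (Reach G σ (s + 1) (h.take (s + 1))).Subsingleton ∨ s + 1 = t) →
      Win G m (Reach G σ t h) := by
    intro m
    induction m with
    | zero =>
      intro t ht h hl hpre
      by_cases hsub : (Reach G σ t h).Subsingleton
      · exact Win.of_subsingleton hsub _
      · exfalso
        cases t with
        | zero =>
          -- `T = 0`: no trajectory can exist, but `Reach` is not a subsingleton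
          rw [Set.not_subsingleton_iff] at hsub
          obtain ⟨x, _, _, _, _⟩ := hsub
          obtain ⟨t, ht', _⟩ := hT (fun _ => x) (fun _ => Or.inl rfl)
          omega
        | succ s =>
          rw [Set.not_subsingleton_iff] at hsub
          obtain ⟨x, hx, x', hx', hne⟩ := hsub
          obtain ⟨r, hr, hh, rfl⟩ := hx
          obtain ⟨t, htT, hloc⟩ := hT r hr
          have htake : h.take (t + 1) = hist G σ r (t + 1) := by
            rw [← hh]
            have : ∀ a b : ℕ, a ≤ b → (hist G σ r b).take a = hist G σ r a := by
              intro a b hab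
              induction b with
              | zero =>
                obtain rfl : a = 0 := by omega
                rfl
              | succ b ih =>
                rcases Nat.lt_or_ge a (b + 1) with h1 | h1
                · rw [hist, List.take_append_of_le_length (by rw [hist_length]; omega)]
                  exact ih (by omega)
                · obtain rfl : a = b + 1 := by omega
                  rw [List.take_of_length_le (by rw [hist_length])]
            exact this _ _ (by omega)
          have hsubs : (Reach G σ (t + 1) (h.take (t + 1))).Subsingleton := by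
            rw [htake]
            rintro y ⟨r1, h1, h2, rfl⟩ y' ⟨r2, h3, h4, rfl⟩
            rw [hloc r1 h1 h2, hloc r2 h3 h4]
          rcases hpre t (by omega) with h5 | h5
          · exact h5 hsubs
          · obtain rfl : t = s := by omega
            rw [List.take_of_length_le (by omega)] at hsubs
            exact hne (hsubs ⟨r, hr, hh, rfl⟩ hx')
    | succ m ih =>
      intro t ht h hl hpre
      by_cases hsub : (Reach G σ t h).Subsingleton
      · exact Win.of_subsingleton hsub _
      · refine Or.inr ⟨σ h, fun a => ?_⟩
        refine Win.anti (reach_step G σ t h ?_ a) ?_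
        · intro h0
          subst h0
          exact List.length_eq_zero_iff.mp hl
        · refine ih (t + 1) (by omega) (h ++ [a]) (by simp [hl]) ?_
          intro s hs
          rcases Nat.lt_or_ge s t with h1 | h1
          · left
            rw [List.take_append_of_le_length (by omega)]
            rcases hpre s h1 with h2 | h2
            · exact h2
            · rw [h2, List.take_of_length_le (by omega)]
              exact hsub
          · right
            omega
  refine ⟨T, ?_⟩
  have := key T 0 (by omega) [] rfl (by intro s hs; omega)
  exact this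

/-- One round of the belief process for a fixed choice `pr` of probes. -/
def step (G : SimpleGraph V) (pr : ℕ → Set V → V) (s : ℕ × Set V) (a : ℕ∞) : ℕ × Set V :=
  (s.1 - 1, nbhd G s.2 ∩ {y | G.edist (pr s.1 s.2) y = a})

theorem locatable_of_win [Nonempty V] {G : SimpleGraph V} {n : ℕ}
    (h : Win G n (Set.univ : Set V)) : Locatable G := by
  classical
  let pr : ℕ → Set V → V := fun m X =>
    if hv : ∃ v, ∀ a : ℕ∞, Win G (m - 1) (nbhd G X ∩ {y | G.edist v y = a}) then hv.choose
    else Classical.arbitrary V
  let st : List ℕ∞ → ℕ × Set V := fun l => l.foldl (step G pr) (n, Set.univ)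
  let σ : List ℕ∞ → V := fun l => pr (st l).1 (st l).2
  have st_app : ∀ l a, st (l ++ [a]) = step G pr (st l) a := by
    intro l a
    simp [st, List.foldl_append]
  have hst1 : ∀ l, (st l).1 = n - l.length := by
    intro l
    induction l using List.reverseRecOn with
    | nil => simp [st]
    | append_singleton l a ih =>
      rw [st_app]
      simp only [step, ih, List.length_append, List.length_singleton]
      omega
  -- the robber is always in the belief set
  have hmem : ∀ r, IsTraj G r → ∀ t, r t ∈ (st (hist G σ r (t + 1))).2 := by
    intro r hr t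
    induction t with
    | zero =>
      rw [hist, st_app]
      refine ⟨⟨r 0, ?_, Or.inl rfl⟩, ?_⟩
      · simp [st, hist]
      · rfl
    | succ t ih =>
      rw [hist, st_app]
      refine ⟨⟨r t, ih, ?_⟩, rfl⟩
      exact hr t
  -- either some earlier belief set is a subsingleton or the current one is still winning
  have hwin : ∀ r, ∀ t, t ≤ n → (∃ s, s ≤ t ∧ (st (hist G σ r s)).2.Subsingleton) ∨
      Win G (n - t) (st (hist G σ r t)).2 := by
    intro r t
    induction t with
    | zero =>
      intro _
      right
      simpa [st, hist] using h
    | succ t ih =>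
      intro ht
      rcases ih (by omega) with ⟨s, hs, hs'⟩ | hw
      · exact Or.inl ⟨s, by omega, hs'⟩
      · obtain ⟨m, hm⟩ : ∃ m, n - t = m + 1 := ⟨n - t - 1, by omega⟩
        rw [hm] at hw
        rcases hw with hw | hw
        · exact Or.inl ⟨t, by omega, hw⟩
        · right
          have hm' : n - (t + 1) = m := by omega
          rw [hm', hist, st_app]
          have h1 : (st (hist G σ r t)).1 - 1 = m := by
            rw [hst1, hist_length]
            omega
          have hex : ∃ v, ∀ a : ℕ∞, Win G ((st (hist G σ r t)).1 - 1)
              (nbhd G (st (hist G σ r t)).2 ∩ {y | G.edist v y = a}) := by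
            rw [h1]
            exact hw
          have h2 := hex.choose_spec (G.edist (σ (hist G σ r t)) (r t))
          have h3 : pr (st (hist G σ r t)).1 (st (hist G σ r t)).2 = hex.choose := by
            simp only [pr]
            rw [dif_pos hex]
          simp only [step]
          rw [h3, ← h1]
          exact h2
  refine ⟨σ, n + 1, fun r hr => ?_⟩
  have : ∃ s, s ≤ n ∧ (st (hist G σ r s)).2.Subsingleton := by
    rcases hwin r n le_rfl with h1 | h1
    · exact h1
    · rw [Nat.sub_self] at h1
      exact ⟨n, le_rfl, h1⟩
  obtain ⟨s, hs, hsub⟩ := this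
  cases s with
  | zero =>
    refine ⟨0, by omega, fun r' _ _ => ?_⟩
    have : (Set.univ : Set V).Subsingleton := by simpa [st, hist] using hsub
    exact this (Set.mem_univ _) (Set.mem_univ _)
  | succ s =>
    refine ⟨s, by omega, fun r' hr' hh => ?_⟩
    have h1 := hmem r' hr' s
    rw [hh] at h1
    exact hsub h1 (hmem r hr s)

end E8H5Loc
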