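import Pool.Agent.E8helper5.LocDefs

/-!
# The robber locating game: `G` locatable implies `G^{1/2}` locatable
-/

namespace E8H5Loc

open Set

universe u

variable {V : Type u} {G : SimpleGraph V}

/-! ### Distances in `Half G` -/

theorem half_adj_lr {v : V} {e : G.edgeSet} :
    (Half G).Adj (Sum.inl v) (Sum.inr e) ↔ v ∈ (e : Sym2 V) := Iff.rfl

theorem half_adj_rl {v : V} {e : G.edgeSet} :
    (Half G).Adj (Sum.inr e) (Sum.inl v) ↔ v ∈ (e : Sym2 V) := Iff.rfl

theorem half_adj_ll {v w : V} : ¬ (Half G).Adj (Sum.inl v) (Sum.inl w) := fun h => h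

theorem half_adj_rr {e f : G.edgeSet} : ¬ (Half G).Adj (Sum.inr e) (Sum.inr f) := fun h => h

/-- two ends of an edge are equal or adjacent -/
theorem ends_adj (e : G.edgeSet) {x y : V} (hx : x ∈ (e : Sym2 V)) (hy : y ∈ (e : Sym2 V)) :
    y = x ∨ G.Adj x y := by
  obtain ⟨e, he⟩ := e
  induction e using Sym2.ind with
  | _ a b =>
    rw [SimpleGraph.mem_edgeSet] at he
    simp only [Sym2.mem_iff] at hx hy
    rcases hx with rfl | rfl <;> rcases hy with rfl | rfl
    · exact Or.inl rfl
    · exact Or.inr he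
    · exact Or.inr he.symm
    · exact Or.inl rfl

theorem exists_ends (e : G.edgeSet) : ∃ x y : V, G.Adj x y ∧ (e : Sym2 V) = s(x, y) := by
  obtain ⟨e, he⟩ := e
  induction e using Sym2.ind with
  | _ a b => exact ⟨a, b, he, rfl⟩

theorem edist_step {v x y : V} (h : G.Adj x y) : G.edist v y ≤ G.edist v x + 1 := by
  calc G.edist v y ≤ G.edist v x + G.edist x y := SimpleGraph.edist_triangle
    _ = G.edist v x + 1 := by rw [SimpleGraph.edist_eq_one_iff_adj.mpr h]

/-- upper bound from walks -/
theorem half_le_of_walk {v x : V} (p : G.Walk v x) :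
    (Half G).edist (Sum.inl v) (Sum.inl x) ≤ 2 * (p.length : ℕ∞) := by
  induction p with
  | nil => simp
  | @cons a b c hab p ih =>
    have e : G.edgeSet := ⟨s(a, b), hab⟩
    have h1 : (Half G).edist (Sum.inl a) (Sum.inr ⟨s(a, b), hab⟩) = 1 :=
      SimpleGraph.edist_eq_one_iff_adj.mpr (by rw [half_adj_lr]; simp)
    have h2 : (Half G).edist (Sum.inr ⟨s(a, b), hab⟩) (Sum.inl b) = 1 :=
      SimpleGraph.edist_eq_one_iff_adj.mpr (by rw [half_adj_rl]; simp)
    calc (Half G).edist (Sum.inl a) (Sum.inl c)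
        ≤ (Half G).edist (Sum.inl a) (Sum.inl b) + (Half G).edist (Sum.inl b) (Sum.inl c) :=
          SimpleGraph.edist_triangle
      _ ≤ ((Half G).edist (Sum.inl a) (Sum.inr ⟨s(a, b), hab⟩) +
            (Half G).edist (Sum.inr ⟨s(a, b), hab⟩) (Sum.inl b)) +
            (Half G).edist (Sum.inl b) (Sum.inl c) := by
          gcongr
          exact SimpleGraph.edist_triangle
      _ ≤ (1 + 1) + 2 * (p.length : ℕ∞) := by
          rw [h1, h2]
          gcongr
      _ = 2 * (((SimpleGraph.Walk.cons hab p).length : ℕ) : ℕ∞) := by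
          rw [SimpleGraph.Walk.length_cons]
          push_cast
          ring

theorem half_le {v x : V} : (Half G).edist (Sum.inl v) (Sum.inl x) ≤ 2 * G.edist v x := by
  by_cases h : G.edist v x = ⊤
  · rw [h]
    simp
  · have hr : G.Reachable v x := SimpleGraph.reachable_of_edist_ne_top h
    obtain ⟨p, hp⟩ := hr.exists_walk_length_eq_edist
    rw [← hp]
    exact half_le_of_walk p

/-- a nearest end of an edge -/
theorem exists_near (v : V) (e : G.edgeSet) :
    ∃ x ∈ (e : Sym2 V), ∀ y ∈ (e : Sym2 V), G.edist v x ≤ G.edist v y := by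
  obtain ⟨x, y, _, he⟩ := exists_ends e
  rcases le_total (G.edist v x) (G.edist v y) with h | h
  · refine ⟨x, by rw [he]; simp, fun z hz => ?_⟩
    rw [he, Sym2.mem_iff] at hz
    rcases hz with rfl | rfl
    · exact le_rfl
    · exact h
  · refine ⟨y, by rw [he]; simp, fun z hz => ?_⟩
    rw [he, Sym2.mem_iff] at hz
    rcases hz with rfl | rfl
    · exact h
    · exact le_rfl

noncomputable def near (v : V) (e : G.edgeSet) : V := (exists_near v e).choose

theorem near_mem (v : V) (e : G.edgeSet) : near v e ∈ (e : Sym2 V) :=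
  (exists_near v e).choose_spec.1

theorem near_le (v : V) (e : G.edgeSet) {y : V} (hy : y ∈ (e : Sym2 V)) :
    G.edist v (near v e) ≤ G.edist v y :=
  (exists_near v e).choose_spec.2 y hy

/-- the distance function from `Sum.inl v` in `Half G` -/
noncomputable def phi (v : V) : V ⊕ G.edgeSet → ℕ∞
  | Sum.inl x => 2 * G.edist v x
  | Sum.inr e => 2 * G.edist v (near v e) + 1

theorem phi_step (v : V) {b c : V ⊕ G.edgeSet} (h : (Half G).Adj b c) :
    phi v c ≤ phi v b + 1 := by
  rcases b with x | e <;> rcases c with y | f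
  · exact absurd h half_adj_ll
  · rw [half_adj_lr] at h
    simp only [phi]
    gcongr
    exact near_le v f h
  · rw [half_adj_rl] at h
    simp only [phi]
    have h1 : G.edist v y ≤ G.edist v (near v e) + 1 := by
      rcases ends_adj e (near_mem v e) h with h2 | h2
      · rw [h2]
        exact le_self_add
      · exact edist_step h2
    calc 2 * G.edist v y ≤ 2 * (G.edist v (near v e) + 1) := by gcongr
      _ = 2 * G.edist v (near v e) + 1 + 1 := by ring
  · exact absurd h half_adj_rr

theorem phi_walk (v : V) {b c : V ⊕ G.edgeSet} (p : (Half G).Walk b c) :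
    phi v c ≤ phi v b + (p.length : ℕ∞) := by
  induction p with
  | nil => simp
  | @cons a b c hab p ih =>
    rw [SimpleGraph.Walk.length_cons]
    push_cast
    calc phi v c ≤ phi v b + (p.length : ℕ∞) := ih
      _ ≤ (phi v a + 1) + (p.length : ℕ∞) := by
          gcongr
          exact phi_step v hab
      _ = phi v a + ((p.length : ℕ∞) + 1) := by ring

theorem half_edist (v : V) (c : V ⊕ G.edgeSet) : (Half G).edist (Sum.inl v) c = phi v c := by
  apply le_antisymm
  · rcases c with x | e
    · exact half_le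
    · have h1 : (Half G).edist (Sum.inl (near v e)) (Sum.inr e) = 1 :=
        SimpleGraph.edist_eq_one_iff_adj.mpr (by rw [half_adj_lr]; exact near_mem v e)
      calc (Half G).edist (Sum.inl v) (Sum.inr e)
          ≤ (Half G).edist (Sum.inl v) (Sum.inl (near v e)) +
            (Half G).edist (Sum.inl (near v e)) (Sum.inr e) := SimpleGraph.edist_triangle
        _ ≤ 2 * G.edist v (near v e) + 1 := by
            rw [h1]
            gcongr
            exact half_le
  · by_cases h : (Half G).edist (Sum.inl v) c = ⊤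
    · rw [h]
      exact le_top
    · have hr : (Half G).Reachable (Sum.inl v) c := SimpleGraph.reachable_of_edist_ne_top h
      obtain ⟨p, hp⟩ := hr.exists_walk_length_eq_edist
      rw [← hp]
      have := phi_walk v p
      have h0 : phi v (Sum.inl v : V ⊕ G.edgeSet) = 0 := by simp [phi]
      rwa [h0, zero_add] at this

theorem half_edist_inl (v x : V) :
    (Half G).edist (Sum.inl v) (Sum.inl x) = 2 * G.edist v x := half_edist v _

theorem half_edist_inr (v : V) (e : G.edgeSet) :
    (Half G).edist (Sum.inl v) (Sum.inr e) = 2 * G.edist v (near v e) + 1 := half_edist v _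

/-! ### Winning belief sets up to the number of rounds -/

/-- the cop wins from `B` in some number of rounds -/
def EW {W : Type u} (H : SimpleGraph W) (B : Set W) : Prop := ∃ m, Win H m B

theorem EW.of_subsingleton {W : Type u} {H : SimpleGraph W} {B : Set W} (h : B.Subsingleton) :
    EW H B := ⟨0, h⟩

theorem EW.anti {W : Type u} {H : SimpleGraph W} {B C : Set W} (h : B ⊆ C) (hC : EW H C) :
    EW H B := by
  obtain ⟨m, hm⟩ := hC
  exact ⟨m, hm.anti h⟩

theorem EW.probe {W : Type u} [Finite W] {H : SimpleGraph W} {B : Set W} (p : W)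
    (h : ∀ a : ℕ∞, EW H (nbhd H B ∩ {y | H.edist p y = a})) : EW H B := by
  classical
  choose m hm using h
  obtain ⟨_⟩ := nonempty_fintype W
  let M := Finset.univ.sup (fun y : W => m (H.edist p y))
  refine ⟨M + 1, Or.inr ⟨p, fun a => ?_⟩⟩
  by_cases hne : (nbhd H B ∩ {y | H.edist p y = a}).Nonempty
  · obtain ⟨y, _, hy⟩ := hne
    have hy' : H.edist p y = a := hy
    refine Win.mono ?_ (hm a)
    have := Finset.le_sup (f := fun y : W => m (H.edist p y)) (Finset.mem_univ y)
    simp only [hy'] at this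
    exact this
  · rw [Set.not_nonempty_iff_eq_empty] at hne
    rw [hne]
    exact Win.of_subsingleton Set.subsingleton_empty _

/-- `circ Z`: the vertices of `Z` and the midpoints of edges inside `Z` -/
def circ (G : SimpleGraph V) (Z : Set V) : Set (V ⊕ G.edgeSet) :=
  {b | (∀ x, b = Sum.inl x → x ∈ Z) ∧ (∀ e, b = Sum.inr e → ∀ x ∈ (e : Sym2 V), x ∈ Z)}

/-! ### No triangles -/

theorem close_three {a b c : ℕ∞} (h1 : b ≤ a + 1) (h2 : a ≤ b + 1) (h3 : c ≤ a + 1)
    (h4 : a ≤ c + 1) (h5 : c ≤ b + 1) (h6 : b ≤ c + 1) : a = b ∨ a = c ∨ b = c := by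
  by_contra hne
  push Not at hne
  obtain ⟨n1, n2, n3⟩ := hne
  have key : ∀ x y z : ℕ∞, x < y → y < z → z ≤ x + 1 → False := by
    intro x y z hxy hyz hzx
    have h7 := Order.add_one_le_of_lt hxy
    exact absurd (lt_of_le_of_lt h7 hyz) (not_lt.mpr hzx)
  rcases lt_or_gt_of_ne n1 with g1 | g1 <;> rcases lt_or_gt_of_ne n2 with g2 | g2 <;>
    rcases lt_or_gt_of_ne n3 with g3 | g3
  · exact key _ _ _ g1 g3 h3
  · exact key _ _ _ g2 g3 h1
  · exact absurd (lt_trans g1 (lt_trans g3 g2)) (lt_irrefl _)
  · exact key _ _ _ g2 g1 h6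
  · exact key _ _ _ g1 g2 h5
  · exact absurd (lt_trans g2 (lt_trans g3 g1)) (lt_irrefl _)
  · exact key _ _ _ g3 g2 h2
  · exact key _ _ _ g3 g1 h4

theorem no_triangle : ∀ (n : ℕ) (X : Set V) (a b c : V), Win G n X → a ∈ X → b ∈ X →
    G.Adj a b → G.Adj a c → G.Adj b c → False
  | 0, X, a, b, c, hX, ha, hb, hab, hac, hbc => hab.ne (hX ha hb)
  | n + 1, X, a, b, c, hX, ha, hb, hab, hac, hbc => by
    rcases hX with hX | ⟨v, hv⟩
    · exact hab.ne (hX ha hb)
    · have ma : a ∈ nbhd G X := subset_nbhd G X ha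
      have mb : b ∈ nbhd G X := subset_nbhd G X hb
      have mc : c ∈ nbhd G X := ⟨a, ha, Or.inr hac⟩
      rcases close_three (edist_step (v := v) hab) (edist_step (v := v) hab.symm)
        (edist_step (v := v) hac) (edist_step (v := v) hac.symm)
        (edist_step (v := v) hbc) (edist_step (v := v) hbc.symm) with h | h | h
      · exact no_triangle n _ a b c (hv (G.edist v b)) ⟨ma, h⟩ ⟨mb, rfl⟩ hab hac hbc
      · exact no_triangle n _ a c b (hv (G.edist v c)) ⟨ma, h⟩ ⟨mc, rfl⟩ hac hab hbc.symm
      · exact no_triangle n _ b c a (hv (G.edist v c)) ⟨mb, h⟩ ⟨mc, rfl⟩ hbc hab.symm hac.symm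

/-! ### Arithmetic in `ℕ∞` -/

theorem a_top {a : ℕ∞} (h : 2 * a = ⊤) : a = ⊤ := by
  induction a using ENat.recTopCoe with
  | top => rfl
  | coe a =>
    exfalso
    have : ((2 * a : ℕ) : ℕ∞) = ⊤ := by push_cast; exact h
    exact ENat.natCast_ne_top _ this

theorem a_top' {a : ℕ∞} (h : 2 * a + 1 = ⊤) : a = ⊤ := by
  induction a using ENat.recTopCoe with
  | top => rfl
  | coe a =>
    exfalso
    have : ((2 * a + 1 : ℕ) : ℕ∞) = ⊤ := by push_cast; exact h
    exact ENat.natCast_ne_top _ this

theorem a_even {a : ℕ∞} {l : ℕ} (h : 2 * a = ((2 * l : ℕ) : ℕ∞)) : a = l := by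
  induction a using ENat.recTopCoe with
  | top =>
    exfalso
    rw [ENat.mul_top (by norm_num)] at h
    exact ENat.natCast_ne_top _ h.symm
  | coe a =>
    have h' : 2 * a = 2 * l := by exact_mod_cast h
    have : a = l := by omega
    rw [this]

theorem a_even' {a : ℕ∞} {l : ℕ} (h : 2 * a + 1 = ((2 * l : ℕ) : ℕ∞)) : False := by
  induction a using ENat.recTopCoe with
  | top =>
    rw [ENat.mul_top (by norm_num), top_add] at h
    exact ENat.natCast_ne_top _ h.symm
  | coe a =>
    have h' : 2 * a + 1 = 2 * l := by exact_mod_cast h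
    omega

theorem a_odd {a : ℕ∞} {l : ℕ} (h : 2 * a = ((2 * l + 1 : ℕ) : ℕ∞)) : False := by
  induction a using ENat.recTopCoe with
  | top =>
    rw [ENat.mul_top (by norm_num)] at h
    exact ENat.natCast_ne_top _ h.symm
  | coe a =>
    have h' : 2 * a = 2 * l + 1 := by exact_mod_cast h
    omega

theorem a_odd' {a : ℕ∞} {l : ℕ} (h : 2 * a + 1 = ((2 * l + 1 : ℕ) : ℕ∞)) : a = l := by
  induction a using ENat.recTopCoe with
  | top =>
    exfalso
    rw [ENat.mul_top (by norm_num), top_add] at h
    exact ENat.natCast_ne_top _ h.symm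
  | coe a =>
    have h' : 2 * a + 1 = 2 * l + 1 := by exact_mod_cast h
    have : a = l := by omega
    rw [this]

theorem a_two {a : ℕ∞} (h : a ≤ 2) (h0 : a ≠ 0) (h1 : a ≠ 1) : a = 2 := by
  induction a using ENat.recTopCoe with
  | top => simp at h
  | coe a =>
    have h' : a ≤ 2 := by exact_mod_cast h
    have h0' : a ≠ 0 := by exact_mod_cast h0
    have h1' : a ≠ 1 := by exact_mod_cast h1
    have : a = 2 := by omega
    rw [this]
    rfl

/-! ### The main induction -/

theorem circ_subsingleton {Z : Set V} (h : Z.Subsingleton) : (circ G Z).Subsingleton := by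
  have noe : ∀ f : G.edgeSet, (Sum.inr f : V ⊕ G.edgeSet) ∈ circ G Z → False := by
    intro f hf
    obtain ⟨x', y', hadj, he⟩ := exists_ends f
    exact hadj.ne (h (hf.2 f rfl x' (by rw [he]; simp)) (hf.2 f rfl y' (by rw [he]; simp)))
  intro b hb c hc
  rcases b with x | e
  · rcases c with y | f
    · rw [h (hb.1 x rfl) (hc.1 y rfl)]
    · exact (noe f hc).elim
  · exact (noe e hb).elim

theorem mem_nbhd_edges {F : Set G.edgeSet} {b : V ⊕ G.edgeSet}
    (hb : b ∈ nbhd (Half G) (Sum.inr '' F)) :
    (∃ e ∈ F, b = Sum.inr e) ∨ (∃ e ∈ F, ∃ x ∈ (e : Sym2 V), b = Sum.inl x) := by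
  obtain ⟨_, ⟨e, he, rfl⟩, h | h⟩ := hb
  · exact Or.inl ⟨e, he, h⟩
  · rcases b with x | f
    · exact Or.inr ⟨e, he, x, half_adj_rl.mp h, rfl⟩
    · exact (half_adj_rr h).elim

theorem star_case [Finite V] {z : V} {S : Set V} (hS : EW (Half G) (circ G S))
    (hnt : ∀ a ∈ S, ∀ b ∈ S, G.Adj z a → G.Adj z b → ¬ G.Adj a b) (F : Finset G.edgeSet)
    (hF : ∀ e ∈ F, z ∈ (e : Sym2 V) ∧ ∀ w ∈ (e : Sym2 V), w ≠ z → w ∈ S) :
    EW (Half G) (Sum.inr '' (F : Set G.edgeSet)) := by
  classical
  have : Finite (V ⊕ G.edgeSet) := inferInstance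
  induction F using Finset.induction_on with
  | empty =>
    apply EW.of_subsingleton
    simp
  | insert e0 F he0 ih =>
    have ih' := ih (fun e he => hF e (Finset.mem_insert_of_mem he))
    -- other end of an edge at `z`
    have other : ∀ e ∈ insert e0 F, ∃ w, (e : Sym2 V) = s(z, w) ∧ G.Adj z w ∧ w ∈ S := by
      intro e he
      obtain ⟨x, y, hadj, hxy⟩ := exists_ends e
      have hz := (hF e he).1
      rw [hxy, Sym2.mem_iff] at hz
      rcases hz with rfl | rfl
      · exact ⟨y, hxy, hadj, (hF e he).2 y (by rw [hxy]; simp) hadj.ne'⟩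
      · exact ⟨x, by rw [hxy, Sym2.eq_swap], hadj.symm,
          (hF e he).2 x (by rw [hxy]; simp) hadj.ne⟩
    obtain ⟨w1, hw1, hzw1, hw1S⟩ := other e0 (Finset.mem_insert_self _ _)
    have d1 : G.edist w1 z = 1 := SimpleGraph.edist_eq_one_iff_adj.mpr hzw1.symm
    have d2 : ∀ w, G.Adj z w → w ∈ S → w ≠ w1 → G.edist w1 w = 2 := by
      intro w hzw hw hne
      apply a_two
      · calc G.edist w1 w ≤ G.edist w1 z + G.edist z w := SimpleGraph.edist_triangle
          _ = 2 := by rw [d1, SimpleGraph.edist_eq_one_iff_adj.mpr hzw]; rfl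
      · intro h
        exact hne (SimpleGraph.edist_eq_zero_iff.mp h).symm
      · intro h
        exact hnt w1 hw1S w hw hzw1 hzw (SimpleGraph.edist_eq_one_iff_adj.mp h)
    have hclass : ∀ b ∈ nbhd (Half G) (Sum.inr '' ((insert e0 F : Finset G.edgeSet) : Set G.edgeSet)),
        (b = Sum.inr e0 ∧ (Half G).edist (Sum.inl w1) b = 1) ∨
        (b ∈ Sum.inr '' (F : Set G.edgeSet) ∧ (Half G).edist (Sum.inl w1) b = 3) ∨
        (b = Sum.inl w1 ∧ (Half G).edist (Sum.inl w1) b = 0) ∨
        (b = Sum.inl z ∧ (Half G).edist (Sum.inl w1) b = 2) ∨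
        ((∃ w ∈ S, b = Sum.inl w) ∧ (Half G).edist (Sum.inl w1) b = 4) := by
      intro b hb
      rcases mem_nbhd_edges hb with ⟨e, he, rfl⟩ | ⟨e, he, x, hx, rfl⟩
      · have he' : e ∈ insert e0 F := by exact_mod_cast he
        by_cases hee : e = e0
        · left
          subst hee
          refine ⟨rfl, ?_⟩
          rw [half_edist_inr]
          have h1 : G.edist w1 (near w1 e) ≤ 0 := by
            have := near_le w1 e (y := w1) (by rw [hw1]; simp)
            rwa [SimpleGraph.edist_self] at this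
          rw [nonpos_iff_eq_zero.mp h1]
          norm_num
        · right; left
          have heF : e ∈ F := (Finset.mem_insert.mp he').resolve_left hee
          refine ⟨⟨e, heF, rfl⟩, ?_⟩
          obtain ⟨w, hw, hzw, hwS⟩ := other e he'
          have hne : w ≠ w1 := by
            rintro rfl
            exact hee (Subtype.ext (by rw [hw, hw1]))
          have hdw := d2 w hzw hwS hne
          rw [half_edist_inr]
          have h1 : G.edist w1 (near w1 e) ≤ 1 := by
            have := near_le w1 e (y := z) (by rw [hw]; simp)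
            rwa [d1] at this
          have h2 := near_mem w1 e
          rw [hw, Sym2.mem_iff] at h2
          have h3 : G.edist w1 (near w1 e) = 1 := by
            rcases h2 with h2 | h2
            · rw [h2, d1]
            · rw [h2, hdw] at h1
              exact absurd h1 (by decide)
          rw [h3]
          norm_num
      · have he' : e ∈ insert e0 F := by exact_mod_cast he
        obtain ⟨w, hw, hzw, hwS⟩ := other e he'
        rw [hw, Sym2.mem_iff] at hx
        right; right
        rcases hx with rfl | rfl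
        · right; left
          refine ⟨rfl, ?_⟩
          rw [half_edist_inl, d1]
          norm_num
        · by_cases hxw : x = w1
          · left
            refine ⟨by rw [hxw], ?_⟩
            rw [half_edist_inl, hxw, SimpleGraph.edist_self]
            norm_num
          · right; right
            refine ⟨⟨x, hwS, rfl⟩, ?_⟩
            rw [half_edist_inl, d2 x hzw hwS hxw]
            norm_num
    refine EW.probe (Sum.inl w1) (fun a => ?_)
    by_cases ha3 : a = 3
    · refine EW.anti ?_ ih'
      rintro b ⟨hb, hba⟩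
      have hba' : (Half G).edist (Sum.inl w1) b = a := hba
      rw [ha3] at hba'
      rcases hclass b hb with ⟨_, h⟩ | ⟨h1, h⟩ | ⟨_, h⟩ | ⟨_, h⟩ | ⟨_, h⟩
      · rw [hba'] at h; exact absurd h (by decide)
      · exact h1
      · rw [hba'] at h; exact absurd h (by decide)
      · rw [hba'] at h; exact absurd h (by decide)
      · rw [hba'] at h; exact absurd h (by decide)
    · by_cases ha4 : a = 4
      · refine EW.anti ?_ hS
        rintro b ⟨hb, hba⟩
        have hba' : (Half G).edist (Sum.inl w1) b = a := hba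
        rw [ha4] at hba'
        rcases hclass b hb with ⟨_, h⟩ | ⟨_, h⟩ | ⟨_, h⟩ | ⟨_, h⟩ | ⟨⟨w, hw, rfl⟩, h⟩
        · rw [hba'] at h; exact absurd h (by decide)
        · rw [hba'] at h; exact absurd h (by decide)
        · rw [hba'] at h; exact absurd h (by decide)
        · rw [hba'] at h; exact absurd h (by decide)
        · refine ⟨fun x hx => ?_, fun e he => ?_⟩
          · rw [← Sum.inl.inj hx]
            exact hw
          · exact absurd he (by simp)
      · apply EW.of_subsingleton
        rintro b ⟨hb, hba⟩ c ⟨hc, hca⟩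
        have hba' : (Half G).edist (Sum.inl w1) b = a := hba
        have hca' : (Half G).edist (Sum.inl w1) c = a := hca
        rcases hclass b hb with ⟨h1, h⟩ | ⟨_, h⟩ | ⟨h1, h⟩ | ⟨h1, h⟩ | ⟨_, h⟩ <;>
          rcases hclass c hc with ⟨k1, k⟩ | ⟨_, k⟩ | ⟨k1, k⟩ | ⟨k1, k⟩ | ⟨_, k⟩ <;>
          rw [hba'] at h <;> rw [hca'] at k <;>
          first
            | exact absurd h ha3
            | exact absurd k ha3
            | exact absurd h ha4
            | exact absurd k ha4
            | (rw [h] at k; exact absurd k (by decide))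
            | rw [h1, k1]

theorem edge_state_star [Finite V] {n : ℕ}
    (hP : ∀ Z : Set V, Win G n Z → EW (Half G) (circ G Z)) {i : ℕ} (hi : i ≤ n) {X : Set V}
    {v : V} {k : ℕ∞} (_hk : k ≠ ⊤) (hw : ∀ a, Win G i (nbhd G X ∩ {y | G.edist v y = a}))
    {F : Set G.edgeSet}
    (hF : ∀ e ∈ F, (∃ x ∈ (e : Sym2 V), x ∈ X) ∧ G.edist v (near v e) = k)
    (hY : {x | ∃ e ∈ F, x ∈ (e : Sym2 V) ∧ G.edist v x = k}.Subsingleton) :
    EW (Half G) (Sum.inr '' F) := by
  classical
  rcases F.eq_empty_or_nonempty with rfl | ⟨e1, he1⟩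
  · apply EW.of_subsingleton
    simp
  · have hz : ∀ e ∈ F, near v e = near v e1 := fun e he =>
      hY ⟨e, he, near_mem v e, (hF e he).2⟩ ⟨e1, he1, near_mem v e1, (hF e1 he1).2⟩
    have hfin : F.Finite := Set.toFinite F
    have hS : EW (Half G) (circ G (nbhd G X ∩ {y | G.edist v y = k + 1})) :=
      hP _ (Win.mono hi (hw (k + 1)))
    have := star_case (z := near v e1) hS ?_ hfin.toFinset ?_
    · simpa using this
    · intro a ha b hb hza hzb hab
      exact no_triangle i _ a b (near v e1) (hw (k + 1)) ha hb hab hza.symm hzb.symm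
    · intro e he
      have he' : e ∈ F := by simpa using he
      refine ⟨by rw [← hz e he']; exact near_mem v e, fun w hwe hne => ?_⟩
      obtain ⟨x0, hx0, hx0X⟩ := (hF e he').1
      refine ⟨⟨x0, hx0X, ends_adj e hx0 hwe⟩, ?_⟩
      show G.edist v w = k + 1
      have h1 : k ≤ G.edist v w := by
        rw [← (hF e he').2]
        exact near_le v e hwe
      have h2 : G.edist v w ≠ k := by
        intro h
        exact hne (hY ⟨e, he', hwe, h⟩ ⟨e1, he1, near_mem v e1, (hF e1 he1).2⟩)
      have h3 : G.edist v w ≤ k + 1 := by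
        have h4 : w = near v e ∨ G.Adj (near v e) w := ends_adj e (near_mem v e) hwe
        rcases h4 with h4 | h4
        · exact absurd (h4.trans (hz e he')) hne
        · rw [← (hF e he').2]
          exact edist_step h4
      exact le_antisymm h3 (Order.add_one_le_of_lt (lt_of_le_of_ne h1 (Ne.symm h2)))

theorem edge_state [Finite V] {n : ℕ}
    (hP : ∀ Z : Set V, Win G n Z → EW (Half G) (circ G Z)) :
    ∀ (i : ℕ), i ≤ n → ∀ (X : Set V) (v : V) (k : ℕ∞), k ≠ ⊤ →
      (∀ a, Win G i (nbhd G X ∩ {y | G.edist v y = a})) → ∀ F : Set G.edgeSet,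
      (∀ e ∈ F, (∃ x ∈ (e : Sym2 V), x ∈ X) ∧ G.edist v (near v e) = k) →
      EW (Half G) (Sum.inr '' F) := by
  intro i
  induction i with
  | zero =>
    intro hi X v k hk hw F hF
    refine edge_state_star hP hi hk hw hF ?_
    refine Set.Subsingleton.anti (hw k) ?_
    rintro x ⟨e, he, hx, hxk⟩
    obtain ⟨x0, hx0, hx0X⟩ := (hF e he).1
    exact ⟨⟨x0, hx0X, ends_adj e hx0 hx⟩, hxk⟩
  | succ i ih =>
    intro hi X v k hk hw F hF
    have hYsub : {x | ∃ e ∈ F, x ∈ (e : Sym2 V) ∧ G.edist v x = k} ⊆
        nbhd G X ∩ {y | G.edist v y = k} := by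
      rintro x ⟨e, he, hx, hxk⟩
      obtain ⟨x0, hx0, hx0X⟩ := (hF e he).1
      exact ⟨⟨x0, hx0X, ends_adj e hx0 hx⟩, hxk⟩
    have hWY := Win.anti hYsub (hw k)
    rcases hWY with hY | ⟨u, hu⟩
    · exact edge_state_star hP hi hk hw hF hY
    · have : Finite (V ⊕ G.edgeSet) := inferInstance
      -- every end of an edge of `F` is in the closed neighbourhood of `Y`
      have hend : ∀ e ∈ F, ∀ x ∈ (e : Sym2 V),
          x ∈ nbhd G {x | ∃ e ∈ F, x ∈ (e : Sym2 V) ∧ G.edist v x = k} := by
        intro e he x hx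
        exact ⟨near v e, ⟨e, he, near_mem v e, (hF e he).2⟩, ends_adj e (near_mem v e) hx⟩
      refine EW.probe (Sum.inl u) (fun a => ?_)
      induction a using ENat.recTopCoe with
      | top =>
        refine EW.anti ?_ (hP _ (Win.mono (by omega) (hu ⊤)))
        rintro b ⟨hb, hba⟩
        have hba' : (Half G).edist (Sum.inl u) b = ⊤ := hba
        rcases mem_nbhd_edges hb with ⟨e, he, rfl⟩ | ⟨e, he, x, hx, rfl⟩
        · refine ⟨fun x hx => absurd hx (by simp), fun f hf x hx => ?_⟩
          obtain rfl : e = f := Sum.inr.inj hf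
          refine ⟨hend e he x hx, ?_⟩
          rw [half_edist_inr] at hba'
          have := near_le u e hx
          rw [a_top' hba'] at this
          exact top_le_iff.mp this
        · refine ⟨fun y hy => ?_, fun f hf => absurd hf (by simp)⟩
          obtain rfl : x = y := Sum.inl.inj hy
          refine ⟨hend e he x hx, ?_⟩
          rw [half_edist_inl] at hba'
          exact a_top hba'
      | coe m =>
        obtain ⟨l, rfl | rfl⟩ := Nat.even_or_odd' m
        · refine EW.anti ?_ (hP _ (Win.mono (by omega) (hu l)))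
          rintro b ⟨hb, hba⟩
          have hba' : (Half G).edist (Sum.inl u) b = ((2 * l : ℕ) : ℕ∞) := hba
          rcases mem_nbhd_edges hb with ⟨e, he, rfl⟩ | ⟨e, he, x, hx, rfl⟩
          · rw [half_edist_inr] at hba'
            exact (a_even' hba').elim
          · refine ⟨fun y hy => ?_, fun f hf => absurd hf (by simp)⟩
            obtain rfl : x = y := Sum.inl.inj hy
            refine ⟨hend e he x hx, ?_⟩
            rw [half_edist_inl] at hba'
            exact a_even hba'
        · have := ih (by omega) {x | ∃ e ∈ F, x ∈ (e : Sym2 V) ∧ G.edist v x = k} u (l : ℕ∞)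
            (ENat.natCast_ne_top l) hu {e | e ∈ F ∧ G.edist u (near u e) = l} ?_
          · refine EW.anti ?_ this
            rintro b ⟨hb, hba⟩
            have hba' : (Half G).edist (Sum.inl u) b = ((2 * l + 1 : ℕ) : ℕ∞) := hba
            rcases mem_nbhd_edges hb with ⟨e, he, rfl⟩ | ⟨e, he, x, hx, rfl⟩
            · rw [half_edist_inr] at hba'
              exact ⟨e, ⟨he, a_odd' hba'⟩, rfl⟩
            · rw [half_edist_inl] at hba'
              exact (a_odd hba').elim
          · rintro e ⟨he, hel⟩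
            exact ⟨⟨near v e, near_mem v e, e, he, near_mem v e, (hF e he).2⟩, hel⟩

theorem near_mem_aux {Z : Set V} (e : G.edgeSet) (he : ∀ x ∈ (e : Sym2 V), x ∈ Z) :
    ∃ x ∈ (e : Sym2 V), x ∈ Z := by
  obtain ⟨x, y, _, hxy⟩ := exists_ends e
  have hx : x ∈ (e : Sym2 V) := by rw [hxy]; simp
  exact ⟨x, hx, he x hx⟩

theorem mem_nbhd_circ {Z : Set V} {b : V ⊕ G.edgeSet} (hb : b ∈ nbhd (Half G) (circ G Z)) :
    (∃ x ∈ Z, b = Sum.inl x) ∨ (∃ e, b = Sum.inr e ∧ ∃ x ∈ (e : Sym2 V), x ∈ Z) := by
  obtain ⟨c, hc, h⟩ := hb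
  rcases c with x | e
  · have hx := hc.1 x rfl
    rcases h with rfl | h
    · exact Or.inl ⟨x, hx, rfl⟩
    · rcases b with y | f
      · exact (half_adj_ll h).elim
      · exact Or.inr ⟨f, rfl, x, half_adj_lr.mp h, hx⟩
  · have he := hc.2 e rfl
    rcases h with rfl | h
    · exact Or.inr ⟨e, rfl, near_mem_aux e he⟩
    · rcases b with y | f
      · exact Or.inl ⟨y, he y (half_adj_rl.mp h), rfl⟩
      · exact (half_adj_rr h).elim

theorem main_belief [Finite V] : ∀ (n : ℕ) (Z : Set V), Win G n Z → EW (Half G) (circ G Z)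
  | 0, Z, h => EW.of_subsingleton (circ_subsingleton h)
  | n + 1, Z, h => by
    rcases h with h | ⟨v, hv⟩
    · exact EW.of_subsingleton (circ_subsingleton h)
    · have hP : ∀ Z : Set V, Win G n Z → EW (Half G) (circ G Z) := main_belief n
      have : Finite (V ⊕ G.edgeSet) := inferInstance
      refine EW.probe (Sum.inl v) (fun a => ?_)
      induction a using ENat.recTopCoe with
      | top =>
        refine EW.anti ?_ (hP _ (hv ⊤))
        rintro b ⟨hb, hba⟩
        have hba' : (Half G).edist (Sum.inl v) b = ⊤ := hba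
        rcases mem_nbhd_circ hb with ⟨x, hx, rfl⟩ | ⟨e, rfl, x0, hx0, hx0Z⟩
        · refine ⟨fun y hy => ?_, fun f hf => absurd hf (by simp)⟩
          obtain rfl : x = y := Sum.inl.inj hy
          refine ⟨subset_nbhd G Z hx, ?_⟩
          rw [half_edist_inl] at hba'
          exact a_top hba'
        · refine ⟨fun x hx => absurd hx (by simp), fun f hf x hx => ?_⟩
          obtain rfl : e = f := Sum.inr.inj hf
          refine ⟨⟨x0, hx0Z, ends_adj e hx0 hx⟩, ?_⟩
          rw [half_edist_inr] at hba'
          have := near_le v e hx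
          rw [a_top' hba'] at this
          exact top_le_iff.mp this
      | coe m =>
        obtain ⟨l, rfl | rfl⟩ := Nat.even_or_odd' m
        · refine EW.anti ?_ (hP _ (hv l))
          rintro b ⟨hb, hba⟩
          have hba' : (Half G).edist (Sum.inl v) b = ((2 * l : ℕ) : ℕ∞) := hba
          rcases mem_nbhd_circ hb with ⟨x, hx, rfl⟩ | ⟨e, rfl, x0, hx0, hx0Z⟩
          · refine ⟨fun y hy => ?_, fun f hf => absurd hf (by simp)⟩
            obtain rfl : x = y := Sum.inl.inj hy
            refine ⟨subset_nbhd G Z hx, ?_⟩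
            rw [half_edist_inl] at hba'
            exact a_even hba'
          · rw [half_edist_inr] at hba'
            exact (a_even' hba').elim
        · have := edge_state hP n le_rfl Z v (l : ℕ∞) (ENat.natCast_ne_top l) hv
            {e | (∃ x ∈ (e : Sym2 V), x ∈ Z) ∧ G.edist v (near v e) = l} (fun e he => he)
          refine EW.anti ?_ this
          rintro b ⟨hb, hba⟩
          have hba' : (Half G).edist (Sum.inl v) b = ((2 * l + 1 : ℕ) : ℕ∞) := hba
          rcases mem_nbhd_circ hb with ⟨x, hx, rfl⟩ | ⟨e, rfl, x0, hx0, hx0Z⟩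
          · rw [half_edist_inl] at hba'
            exact (a_odd hba').elim
          · rw [half_edist_inr] at hba'
            exact ⟨e, ⟨⟨x0, hx0, hx0Z⟩, a_odd' hba'⟩, rfl⟩

/-- **Theorem.** If a finite graph `G` is locatable, then so is `G^{1/2}`. -/
theorem half_locatable [Finite V] (hG : Locatable G) : Locatable (Half G) := by
  obtain ⟨n, hn⟩ := hG.exists_win
  have hV : Nonempty V := by
    obtain ⟨σ, _⟩ := hG
    exact ⟨σ []⟩
  obtain ⟨m, hm⟩ := main_belief n _ hn
  have hc : circ G (Set.univ : Set V) = Set.univ := by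
    ext b
    simp [circ]
  rw [hc] at hm
  have : Nonempty (V ⊕ G.edgeSet) := inferInstance
  exact locatable_of_win hm

end E8H5Loc
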