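import Mathlib

/-!
Definitions for faithful circuit covers of weighted multigraphs, the property `P_k`, and
subdivisions of the Petersen graph in a multigraph.
-/

set_option autoImplicit false

namespace Pool.Agent.E8helper5.Pet

open Finset

/-- A loopless multigraph with vertex type `V` and edge type `E`: every edge has an unordered pair
of two distinct ends, and parallel edges are allowed. It is finite if `V` and `E` are. -/
structure MGraph (V E : Type) where
  /-- the unordered pair of ends of an edge -/
  ends : E → Sym2 V
  /-- the two ends of an edge are distinct -/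
  loopless : ∀ e, ¬ (ends e).IsDiag

variable {V E : Type} [Fintype V] [DecidableEq V] [Fintype E] [DecidableEq E]

/-- The degree of the vertex `v` in the subgraph formed by the edges in `C`. -/
def MGraph.deg (G : MGraph V E) (C : Finset E) (v : V) : ℕ :=
  (C.filter fun e => v ∈ G.ends e).card

/-- `C` is the edge set of a circuit, that is, of a connected 2-regular subgraph: it is nonempty,
every vertex has degree `0` or `2` in it, and it is not the union of two nonempty parts that have
no common vertex. -/
def MGraph.IsCircuit (G : MGraph V E) (C : Finset E) : Prop :=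
  C.Nonempty ∧ (∀ v, G.deg C v = 0 ∨ G.deg C v = 2) ∧
    ∀ D ⊆ C, D.Nonempty → D ≠ C → ∃ v, ∃ e ∈ D, ∃ f ∈ C \ D, v ∈ G.ends e ∧ v ∈ G.ends f

/-- The edge-cut `δ(X)`: the edges with one end in `X` and one end outside `X`. -/
def MGraph.cut (G : MGraph V E) (X : Finset V) : Finset E :=
  univ.filter fun e => (∃ v ∈ X, v ∈ G.ends e) ∧ ∃ v, v ∉ X ∧ v ∈ G.ends e

/-- The weight `w` is admissible: `w(e) ≤ w(T - {e})` for all edge-cuts `T` and all `e ∈ T`. -/
def MGraph.Admissible (G : MGraph V E) (w : E → ℕ) : Prop :=
  ∀ X : Finset V, X.Nonempty → X ≠ univ → ∀ e ∈ G.cut X, w e ≤ ∑ f ∈ (G.cut X).erase e, w f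

/-- The weight `w` is eulerian: `w(T)` is even for all edge-cuts `T`. -/
def MGraph.Eulerian (G : MGraph V E) (w : E → ℕ) : Prop :=
  ∀ X : Finset V, X.Nonempty → X ≠ univ → Even (∑ f ∈ G.cut X, w f)

/-- `(G, w)` has a faithful circuit cover: there are multiplicities `χ C` of the circuits `C` of `G`
such that every edge `e` lies in exactly `w e` members of the family. -/
def MGraph.FaithfulCover (G : MGraph V E) (w : E → ℕ) : Prop :=
  ∃ χ : Finset E → ℕ, (∀ C, χ C ≠ 0 → G.IsCircuit C) ∧
    ∀ e, ∑ C ∈ univ.filter (fun C : Finset E => e ∈ C), χ C = w e

/-- Property `P_k`: `(G, w)` has a faithful circuit cover for every admissible eulerian weight all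
of whose values are multiples of `k`. -/
def MGraph.PropertyP (G : MGraph V E) (k : ℕ) : Prop :=
  ∀ w : E → ℕ, G.Admissible w → G.Eulerian w → (∀ e, k ∣ w e) → G.FaithfulCover w

/-- The vertices of the Petersen graph: `(false, i)` on the outer and `(true, i)` on the inner
5-cycle. -/
abbrev PV : Type := Bool × Fin 5

/-- The 15 edges of the Petersen graph: `(0, i)` on the outer cycle, the spoke `(1, i)`, and `(2, i)`
on the inner cycle. -/
abbrev PE : Type := Fin 3 × Fin 5

/-- The first end of an edge of the Petersen graph. -/
def src : PE → PV
  | (0, i) => (false, i)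
  | (1, i) => (false, i)
  | (2, i) => (true, i)

/-- The second end of an edge of the Petersen graph: the outer edges join `(false, i)` and
`(false, i + 1)`, the spokes `(false, i)` and `(true, i)`, the inner edges `(true, i)` and
`(true, i + 2)`. -/
def tgt : PE → PV
  | (0, i) => (false, i + 1)
  | (1, i) => (true, i)
  | (2, i) => (true, i + 2)

/-- A subgraph of `G` that is a subdivision of the Petersen graph: ten distinct branch vertices and,
for every edge `e` of the Petersen graph, a path with the vertices
`vert e 0, …, vert e (len e)` and the edges `edge e 0, …, edge e (len e - 1)` of `G` between the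
branch vertices of the ends of `e`; the inner vertices of the paths are no branch vertices, and the
inner vertices of different paths are different. -/
structure PetersenSubdivision (G : MGraph V E) where
  /-- the branch vertices -/
  branch : PV → V
  /-- the number of edges of the paths -/
  len : PE → ℕ
  /-- the vertices of the paths -/
  vert : PE → ℕ → V
  /-- the edges of the paths -/
  edge : PE → ℕ → E
  branch_inj : Function.Injective branch
  len_pos : ∀ e, 0 < len e
  start : ∀ e, vert e 0 = branch (src e)
  stop : ∀ e, vert e (len e) = branch (tgt e)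
  link : ∀ e i, i < len e → G.ends (edge e i) = s(vert e i, vert e (i + 1))
  inj : ∀ e i j, i ≤ len e → j ≤ len e → vert e i = vert e j → i = j
  inner_branch : ∀ e i p, 0 < i → i < len e → vert e i ≠ branch p
  inner_disj : ∀ e e' i j, e ≠ e' → 0 < i → i < len e → 0 < j → j < len e' →
    vert e i ≠ vert e' j

end Pool.Agent.E8helper5.Pet
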