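import Pool.Agent.E8helper5.PetMain

set_option autoImplicit false
set_option linter.unusedSectionVars false

namespace Pool.Agent.E8helper5.Pet

open Finset

/-- The number of changes of `b` between `0` and `n`. -/
def cr (b : ℕ → Bool) (n : ℕ) : ℕ := ((range n).filter fun i => b i ≠ b (i + 1)).card

theorem cr_succ (b : ℕ → Bool) (n : ℕ) :
    cr b (n + 1) = cr b n + if b n ≠ b (n + 1) then 1 else 0 := by
  unfold cr
  rw [range_add_one, filter_insert]
  split_ifs with h
  · rw [card_insert_of_notMem (by simp)]
  · rfl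

theorem cr_parity (b : ℕ → Bool) (n : ℕ) : cr b n % 2 = if b 0 = b n then 0 else 1 := by
  induction n with
  | zero => simp [cr]
  | succ n ih =>
    rw [cr_succ]
    rcases h0 : b 0 <;> rcases h1 : b n <;> rcases h2 : b (n + 1) <;>
      simp [h0, h1] at ih ⊢ <;> omega

variable {V E : Type} [Fintype V] [DecidableEq V] [Fintype E] [DecidableEq E]
variable {G : MGraph V E}

theorem src_ne_tgt : ∀ e : PE, src e ≠ tgt e := by decide

theorem ends_inj : ∀ e e' : PE, (src e = src e' ∧ tgt e = tgt e') ∨
    (src e = tgt e' ∧ tgt e = src e') → e = e' := by decide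

namespace PetersenSubdivision

variable (S : PetersenSubdivision G)

/-- The two indices of a path whose vertices are branch vertices are the first and the last one. -/
theorem end_of_branch {e : PE} {i : ℕ} {p : PV} (hi : i ≤ S.len e) (h : S.vert e i = S.branch p) :
    (i = 0 ∧ p = src e) ∨ (i = S.len e ∧ p = tgt e) := by
  rcases Nat.eq_zero_or_pos i with h0 | h0
  · left
    refine ⟨h0, ?_⟩
    subst h0
    rw [S.start] at h
    exact (S.branch_inj h).symm
  · rcases Nat.lt_or_eq_of_le hi with h1 | h1
    · exact absurd h (S.inner_branch e i p h0 h1)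
    · right
      refine ⟨h1, ?_⟩
      subst h1
      rw [S.stop] at h
      exact (S.branch_inj h).symm

/-- A vertex common to two different paths is an end of the first one. -/
theorem end_of_common {e e' : PE} {i j : ℕ} (he : e ≠ e') (hi : i ≤ S.len e) (hj : j ≤ S.len e')
    (h : S.vert e i = S.vert e' j) : i = 0 ∨ i = S.len e := by
  by_contra hcon
  push Not at hcon
  have h0 : 0 < i := Nat.pos_of_ne_zero hcon.1
  have h1 : i < S.len e := lt_of_le_of_ne hi hcon.2
  rcases Nat.eq_zero_or_pos j with h2 | h2
  · subst h2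
    rw [S.start] at h
    exact S.inner_branch e i _ h0 h1 h
  · rcases Nat.lt_or_eq_of_le hj with h3 | h3
    · exact S.inner_disj e e' i j he h0 h1 h2 h3 h
    · subst h3
      rw [S.stop] at h
      exact S.inner_branch e i _ h0 h1 h

theorem edge_inj {e e' : PE} {i j : ℕ} (hi : i < S.len e) (hj : j < S.len e')
    (h : S.edge e i = S.edge e' j) : e = e' ∧ i = j := by
  have hl := S.link e i hi
  rw [h, S.link e' j hj] at hl
  have hl' := Sym2.eq_iff.1 hl
  by_cases he : e = e'
  · subst he
    refine ⟨rfl, ?_⟩
    rcases hl' with ⟨h1, _⟩ | ⟨h1, h2⟩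
    · exact (S.inj e j i hj.le hi.le h1).symm
    · have := S.inj e j (i + 1) hj.le hi h1
      have := S.inj e (j + 1) i hj hi.le h2
      omega
  · exfalso
    have key : ∀ {a a' : PE} {k l : ℕ}, a ≠ a' → k < S.len a → l < S.len a' →
        ((S.vert a k = S.vert a' l ∧ S.vert a (k + 1) = S.vert a' (l + 1)) ∨
          (S.vert a k = S.vert a' (l + 1) ∧ S.vert a (k + 1) = S.vert a' l)) →
        k = 0 ∧ S.len a = 1 := by
      intro a a' k l ha hk hl h
      have h1 : k = 0 ∨ k = S.len a := by
        rcases h with h | h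
        · exact S.end_of_common ha hk.le hl.le h.1
        · exact S.end_of_common ha hk.le hl h.1
      have h2 : k + 1 = 0 ∨ k + 1 = S.len a := by
        rcases h with h | h
        · exact S.end_of_common ha hk hl h.2
        · exact S.end_of_common ha hk hl.le h.2
      omega
    have hl1 : (S.vert e i = S.vert e' j ∧ S.vert e (i + 1) = S.vert e' (j + 1)) ∨
          (S.vert e i = S.vert e' (j + 1) ∧ S.vert e (i + 1) = S.vert e' j) := by
      rcases hl' with h | h
      · exact Or.inl ⟨h.1.symm, h.2.symm⟩
      · exact Or.inr ⟨h.2.symm, h.1.symm⟩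
    have hl2 : (S.vert e' j = S.vert e i ∧ S.vert e' (j + 1) = S.vert e (i + 1)) ∨
          (S.vert e' j = S.vert e (i + 1) ∧ S.vert e' (j + 1) = S.vert e i) := hl'
    obtain ⟨i0, n1⟩ := key he hi hj hl1
    obtain ⟨j0, n1'⟩ := key (Ne.symm he) hj hi hl2
    subst i0; subst j0
    have s1 := S.start e
    have s2 := S.stop e
    have s3 := S.start e'
    have s4 := S.stop e'
    rw [n1] at s2
    rw [n1'] at s4
    apply he
    apply ends_inj
    rcases hl1 with h | h
    · left
      simp only [zero_add] at h
      rw [s1, s3, s2, s4] at h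
      exact ⟨S.branch_inj h.1, S.branch_inj h.2⟩
    · right
      simp only [zero_add] at h
      rw [s1, s3, s2, s4] at h
      exact ⟨S.branch_inj h.1, S.branch_inj h.2⟩

/-- The weight: `w0 e` on the edges of the path of `e`, and `0` on the other edges. -/
def wt (f : E) : ℕ := ∑ e : PE, w0 e * ((range (S.len e)).filter fun i => S.edge e i = f).card

theorem wt_edge {e : PE} {i : ℕ} (hi : i < S.len e) : S.wt (S.edge e i) = w0 e := by
  unfold wt
  rw [Finset.sum_eq_single e]
  · have : ((range (S.len e)).filter fun j => S.edge e j = S.edge e i) = {i} := by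
      ext j
      simp only [mem_filter, mem_range, mem_singleton]
      constructor
      · rintro ⟨hj, h⟩
        exact (S.edge_inj hj hi h).2
      · rintro rfl
        exact ⟨hi, rfl⟩
    rw [this]; simp
  · intro e' _ he'
    have : ((range (S.len e')).filter fun j => S.edge e' j = S.edge e i) = ∅ := by
      apply filter_eq_empty_iff.2
      intro j hj h
      exact he' (S.edge_inj (mem_range.1 hj) hi h).1
    rw [this]; simp
  · simp

theorem exists_of_wt {f : E} (h : S.wt f ≠ 0) : ∃ e i, i < S.len e ∧ S.edge e i = f := by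
  by_contra hcon
  push Not at hcon
  apply h
  unfold wt
  apply Finset.sum_eq_zero
  intro e _
  have : ((range (S.len e)).filter fun j => S.edge e j = f) = ∅ := by
    apply filter_eq_empty_iff.2
    intro j hj h
    exact hcon e j (mem_range.1 hj) h
  rw [this]; simp

/-- The side of the `i`-th vertex of the path of `e`. -/
def side (X : Finset V) (e : PE) (i : ℕ) : Bool := decide (S.vert e i ∈ X)

theorem mem_cut (X : Finset V) {e : PE} {i : ℕ} (hi : i < S.len e) :
    S.edge e i ∈ G.cut X ↔ S.side X e i ≠ S.side X e (i + 1) := by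
  unfold MGraph.cut side
  simp only [mem_filter, mem_univ, true_and, S.link e i hi, Sym2.mem_iff]
  by_cases h1 : S.vert e i ∈ X <;> by_cases h2 : S.vert e (i + 1) ∈ X
  · simp only [h1, h2, ne_eq, not_true_eq_false, iff_false, not_and]
    rintro - ⟨v, hv, rfl | rfl⟩ <;> exact hv (by assumption)
  · simp only [h1, h2, decide_true, decide_false, ne_eq, Bool.true_eq_false, not_false_eq_true,
      iff_true]
    exact ⟨⟨_, h1, Or.inl rfl⟩, ⟨_, h2, Or.inr rfl⟩⟩
  · simp only [h1, h2, decide_true, decide_false, ne_eq, Bool.false_eq_true, not_false_eq_true,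
      iff_true]
    exact ⟨⟨_, h2, Or.inr rfl⟩, ⟨_, h1, Or.inl rfl⟩⟩
  · simp only [h1, h2, ne_eq, not_true_eq_false, iff_false, not_and]
    rintro ⟨v, hv, rfl | rfl⟩ <;> exact absurd hv (by assumption)

theorem sum_cut (X : Finset V) :
    ∑ f ∈ G.cut X, S.wt f = ∑ e : PE, w0 e * cr (S.side X e) (S.len e) := by
  unfold wt
  rw [Finset.sum_comm]
  apply Finset.sum_congr rfl
  intro e _
  rw [← Finset.mul_sum]
  congr 1
  unfold cr
  simp only [Finset.card_filter]
  rw [Finset.sum_comm]
  apply Finset.sum_congr rfl
  intro i hi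
  rw [Finset.sum_ite_eq]
  simp only [S.mem_cut X (mem_range.1 hi)]

theorem le_sum_cut (X : Finset V) :
    cutw (fun p => decide (S.branch p ∈ X)) ≤ ∑ f ∈ G.cut X, S.wt f := by
  rw [S.sum_cut]
  unfold cutw
  apply Finset.sum_le_sum
  intro e _
  split_ifs with h
  · have h1 := cr_parity (S.side X e) (S.len e)
    have h2 : S.side X e 0 ≠ S.side X e (S.len e) := by
      unfold side
      rw [S.start, S.stop]
      simpa [sep] using h
    rw [if_neg h2] at h1
    have : 1 ≤ cr (S.side X e) (S.len e) := by omega
    nlinarith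
  · exact Nat.zero_le _

theorem even_sum_cut (X : Finset V) : (∑ f ∈ G.cut X, S.wt f) % 2 = 0 := by
  have h0 := pet_even fun p => decide (S.branch p ∈ X)
  have key : ∀ e : PE, (w0 e * cr (S.side X e) (S.len e)) % 2 =
      (if sep (fun p => decide (S.branch p ∈ X)) e = true then w0 e else 0) % 2 := by
    intro e
    have h1 := cr_parity (S.side X e) (S.len e)
    rw [Nat.mul_mod, h1]
    have h2 : (S.side X e 0 = S.side X e (S.len e)) ↔
        ¬ (sep (fun p => decide (S.branch p ∈ X)) e = true) := by
      unfold side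
      rw [S.start, S.stop]
      simp [sep]
    by_cases h3 : sep (fun p => decide (S.branch p ∈ X)) e = true
    · have h4 : ¬ (S.side X e 0 = S.side X e (S.len e)) := fun h => (h2.1 h) h3
      rw [if_neg h4, if_pos h3]
      simp
    · rw [if_pos (h2.2 h3), if_neg h3]
      simp
  rw [S.sum_cut, Finset.sum_nat_mod, Finset.sum_congr rfl (fun e _ => key e),
    ← Finset.sum_nat_mod]
  exact h0

theorem admissible (k : ℕ) : G.Admissible fun f => k * S.wt f := by
  intro X _ _ f hf
  have h2 : 2 * S.wt f ≤ ∑ g ∈ G.cut X, S.wt g := by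
    by_cases h0 : S.wt f = 0
    · rw [h0]; exact Nat.zero_le _
    obtain ⟨e, i, hi, rfl⟩ := S.exists_of_wt h0
    rw [S.wt_edge hi]
    by_cases hs : sep (fun p => decide (S.branch p ∈ X)) e = true
    · exact (pet_adm _ e hs).trans (S.le_sum_cut X)
    · rw [S.sum_cut]
      have h1 := cr_parity (S.side X e) (S.len e)
      have h3 : S.side X e 0 = S.side X e (S.len e) := by
        unfold side
        rw [S.start, S.stop]
        simpa [sep] using hs
      rw [if_pos h3] at h1
      have h4 : i ∈ (range (S.len e)).filter fun i => S.side X e i ≠ S.side X e (i + 1) :=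
        mem_filter.2 ⟨mem_range.2 hi, (S.mem_cut X hi).1 hf⟩
      have h5 : 0 < cr (S.side X e) (S.len e) := card_pos.2 ⟨i, h4⟩
      have h6 : 2 ≤ cr (S.side X e) (S.len e) := by omega
      calc 2 * w0 e ≤ w0 e * cr (S.side X e) (S.len e) := by nlinarith
        _ ≤ _ := Finset.single_le_sum (f := fun e => w0 e * cr (S.side X e) (S.len e))
            (fun _ _ => Nat.zero_le _) (mem_univ e)
  have h3 : S.wt f + ∑ g ∈ (G.cut X).erase f, S.wt g = ∑ g ∈ G.cut X, S.wt g :=
    Finset.add_sum_erase _ _ hf
  have h4 : S.wt f ≤ ∑ g ∈ (G.cut X).erase f, S.wt g := by omega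
  show k * S.wt f ≤ ∑ g ∈ (G.cut X).erase f, k * S.wt g
  rw [← Finset.mul_sum]
  exact Nat.mul_le_mul_left k h4

theorem eulerian (k : ℕ) : G.Eulerian fun f => k * S.wt f := by
  intro X _ _
  show Even (∑ f ∈ G.cut X, k * S.wt f)
  rw [← Finset.mul_sum]
  exact (Nat.even_iff.2 (S.even_sum_cut X)).mul_left k

/-! ### The circuits in a cover -/

/-- A set of edges with degrees `0` and `2` in the subdivision. -/
structure Good (C : Finset E) : Prop where
  deg : ∀ v, G.deg C v = 0 ∨ G.deg C v = 2
  supp : ∀ f ∈ C, ∃ e i, i < S.len e ∧ S.edge e i = f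

variable {S}

theorem Good.step {C : Finset E} (h : S.Good C) {e : PE} {i : ℕ} (h0 : i + 1 < S.len e) :
    S.edge e i ∈ C ↔ S.edge e (i + 1) ∈ C := by
  have hsub : C.filter (fun f => S.vert e (i + 1) ∈ G.ends f) ⊆
      {S.edge e i, S.edge e (i + 1)} := by
    intro f hf
    rw [mem_filter] at hf
    obtain ⟨e', j, hj, rfl⟩ := h.supp f hf.1
    have h1 := hf.2
    rw [S.link e' j hj, Sym2.mem_iff] at h1
    have he : e = e' := by
      by_contra hne
      rcases h1 with h1 | h1
      · have := S.end_of_common hne h0.le hj.le h1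
        omega
      · have := S.end_of_common hne h0.le hj h1
        omega
    subst he
    rw [mem_insert, mem_singleton]
    rcases h1 with h1 | h1
    · have := S.inj e _ _ h0.le hj.le h1
      subst this
      exact Or.inr rfl
    · have := S.inj e _ _ h0.le hj h1
      have h2 : j = i := by omega
      subst h2
      exact Or.inl rfl
  have hne : S.edge e i ≠ S.edge e (i + 1) := fun hh => by
    have := (S.edge_inj (Nat.lt_of_succ_lt h0) h0 hh).2
    omega
  have m1 : S.vert e (i + 1) ∈ G.ends (S.edge e i) := by
    rw [S.link e i (Nat.lt_of_succ_lt h0), Sym2.mem_iff]; exact Or.inr rfl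
  have m2 : S.vert e (i + 1) ∈ G.ends (S.edge e (i + 1)) := by
    rw [S.link e (i + 1) h0, Sym2.mem_iff]; exact Or.inl rfl
  rcases h.deg (S.vert e (i + 1)) with hd | hd
  · have hd' : C.filter (fun f => S.vert e (i + 1) ∈ G.ends f) = ∅ := card_eq_zero.1 hd
    constructor
    · intro hh
      have : S.edge e i ∈ C.filter (fun f => S.vert e (i + 1) ∈ G.ends f) :=
        mem_filter.2 ⟨hh, m1⟩
      rw [hd'] at this
      exact absurd this (notMem_empty _)
    · intro hh
      have : S.edge e (i + 1) ∈ C.filter (fun f => S.vert e (i + 1) ∈ G.ends f) :=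
        mem_filter.2 ⟨hh, m2⟩
      rw [hd'] at this
      exact absurd this (notMem_empty _)
  · have hc : ({S.edge e i, S.edge e (i + 1)} : Finset E).card = 2 := card_pair hne
    have heq : C.filter (fun f => S.vert e (i + 1) ∈ G.ends f) =
        {S.edge e i, S.edge e (i + 1)} :=
      eq_of_subset_of_card_le hsub (by rw [hc]; exact hd.ge)
    have a1 : S.edge e i ∈ C.filter (fun f => S.vert e (i + 1) ∈ G.ends f) := by
      rw [heq]; simp
    have a2 : S.edge e (i + 1) ∈ C.filter (fun f => S.vert e (i + 1) ∈ G.ends f) := by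
      rw [heq]; simp
    exact ⟨fun _ => (mem_filter.1 a2).1, fun _ => (mem_filter.1 a1).1⟩

theorem Good.all {C : Finset E} (h : S.Good C) {e : PE} : ∀ {i : ℕ}, i < S.len e →
    (S.edge e i ∈ C ↔ S.edge e 0 ∈ C) := by
  intro i
  induction i with
  | zero => intro _; rfl
  | succ i ih =>
    intro hi
    rw [← h.step hi]
    exact ih (Nat.lt_of_succ_lt hi)

/-- The indicator function of the edges of the Petersen graph whose paths are in `C`. -/
def ind (S : PetersenSubdivision G) (C : Finset E) (e : PE) : ℕ := if S.edge e 0 ∈ C then 1 else 0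

theorem Good.deg_branch {C : Finset E} (h : S.Good C) (p : PV) :
    G.deg C (S.branch p) = ∑ e : PE, if (src e = p ∨ tgt e = p) then S.ind C e else 0 := by
  have hR : (∑ e : PE, if (src e = p ∨ tgt e = p) then S.ind C e else 0) =
      (univ.filter fun e : PE => (src e = p ∨ tgt e = p) ∧ S.edge e 0 ∈ C).card := by
    rw [Finset.card_filter]
    apply Finset.sum_congr rfl
    intro e _
    unfold ind
    by_cases h1 : (src e = p ∨ tgt e = p) <;> by_cases h2 : S.edge e 0 ∈ C <;> simp [h1, h2]
  rw [hR]
  symm
  unfold MGraph.deg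
  apply Finset.card_bij fun e _ => if src e = p then S.edge e 0 else S.edge e (S.len e - 1)
  · intro e he
    rw [mem_filter] at he
    obtain ⟨-, he1, he2⟩ := he
    have hl : S.len e - 1 < S.len e := Nat.sub_lt (S.len_pos e) one_pos
    rw [mem_filter]
    split_ifs with hs
    · refine ⟨he2, ?_⟩
      rw [S.link e 0 (S.len_pos e), Sym2.mem_iff, S.start, hs]
      exact Or.inl rfl
    · refine ⟨(h.all hl).2 he2, ?_⟩
      have ht : tgt e = p := he1.resolve_left hs
      have h1 : S.len e - 1 + 1 = S.len e := Nat.sub_add_cancel (S.len_pos e)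
      rw [S.link e _ hl, Sym2.mem_iff, h1, S.stop, ht]
      exact Or.inr rfl
  · intro e _ e' _ hee
    have hl : S.len e - 1 < S.len e := Nat.sub_lt (S.len_pos e) one_pos
    have hl' : S.len e' - 1 < S.len e' := Nat.sub_lt (S.len_pos e') one_pos
    split_ifs at hee
    · exact (S.edge_inj (S.len_pos e) (S.len_pos e') hee).1
    · exact (S.edge_inj (S.len_pos e) hl' hee).1
    · exact (S.edge_inj hl (S.len_pos e') hee).1
    · exact (S.edge_inj hl hl' hee).1
  · intro f hf
    rw [mem_filter] at hf
    obtain ⟨e, j, hj, rfl⟩ := h.supp f hf.1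
    have h1 := hf.2
    rw [S.link e j hj, Sym2.mem_iff] at h1
    have h0 := (h.all hj).1 hf.1
    rcases h1 with h1 | h1
    · rcases S.end_of_branch hj.le h1.symm with ⟨h2, h3⟩ | ⟨h2, _⟩
      · refine ⟨e, ?_, ?_⟩
        · rw [mem_filter]
          exact ⟨mem_univ _, Or.inl h3.symm, h0⟩
        · rw [if_pos h3.symm, h2]
      · omega
    · rcases S.end_of_branch hj h1.symm with ⟨h2, _⟩ | ⟨h2, h3⟩
      · omega
      · refine ⟨e, ?_, ?_⟩
        · rw [mem_filter]
          exact ⟨mem_univ _, Or.inr h3.symm, h0⟩
        · have h4 : src e ≠ p := fun h5 => src_ne_tgt e (h5.trans h3)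
          rw [if_neg h4]
          have h6 : S.len e - 1 = j := by omega
          rw [h6]

theorem sum_inc (c : PE → ℕ) (p : PV) :
    (∑ e : PE, if (src e = p ∨ tgt e = p) then c e else 0) =
      c (1, p.2) + (if p.1 then c (2, p.2) + c (2, p.2 - 2) else c (0, p.2) + c (0, p.2 - 1)) := by
  obtain ⟨b, i⟩ := p
  rw [Fintype.sum_prod_type, Fin.sum_univ_three]
  simp only [Fin.sum_univ_five]
  have m1 : (-1 : Fin 5) = 4 := rfl
  have m2 : (-2 : Fin 5) = 3 := rfl
  cases b <;> fin_cases i <;> simp [src, tgt, m1, m2]
  all_goals omega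

theorem not_cover {k : ℕ} (hk : Odd k) (S : PetersenSubdivision G) :
    ¬ G.FaithfulCover fun f => k * S.wt f := by
  rintro ⟨χ, hcirc, hcov⟩
  replace hcov : ∀ e, ∑ C ∈ univ.filter (fun C : Finset E => e ∈ C), χ C = k * S.wt e := hcov
  -- the members of the cover are good
  have hgood : ∀ C, χ C ≠ 0 → S.Good C := by
    intro C hC
    refine ⟨(hcirc C hC).2.1, fun f hf => ?_⟩
    apply S.exists_of_wt
    intro h0
    have h1 := hcov f
    rw [h0, mul_zero] at h1
    have h2 := (Finset.sum_eq_zero_iff.1 h1) C (mem_filter.2 ⟨mem_univ _, hf⟩)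
    exact hC h2
  -- the number of members containing the path of `e`
  have hnum : ∀ e : PE, ∑ C : Finset E, χ C * S.ind C e = k * w0 e := by
    intro e
    have h1 := hcov (S.edge e 0)
    simp only [S.wt_edge (S.len_pos e)] at h1
    rw [← h1, Finset.sum_filter]
    apply Finset.sum_congr rfl
    intro C _
    unfold ind
    split_ifs <;> simp
  -- the spoke at a vertex is tight
  have htight : ∀ (p : PV) (C : Finset E), χ C ≠ 0 →
      G.deg C (S.branch p) = 2 * S.ind C (1, p.2) := by
    intro p
    have hle : ∀ C ∈ (univ : Finset (Finset E)), χ C * (2 * S.ind C (1, p.2)) ≤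
        χ C * G.deg C (S.branch p) := by
      intro C _
      by_cases h0 : χ C = 0
      · simp [h0]
      · apply Nat.mul_le_mul_left
        have hg := hgood C h0
        rcases Nat.eq_zero_or_pos (S.ind C (1, p.2)) with h1 | h1
        · rw [h1]; exact Nat.zero_le _
        · have h2 : S.ind C (1, p.2) = 1 := by
            unfold ind at h1 ⊢
            split_ifs at h1 ⊢ <;> omega
          have h3 := hg.deg_branch p
          rw [sum_inc] at h3
          rcases hg.deg (S.branch p) with h4 | h4 <;> omega
    have hsum : ∑ C : Finset E, χ C * (2 * S.ind C (1, p.2)) =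
        ∑ C : Finset E, χ C * G.deg C (S.branch p) := by
      have e1 : ∑ C : Finset E, χ C * (2 * S.ind C (1, p.2)) = 4 * k := by
        have : ∀ C : Finset E, χ C * (2 * S.ind C (1, p.2)) = 2 * (χ C * S.ind C (1, p.2)) :=
          fun C => by ring
        simp only [this]
        rw [← Finset.mul_sum, hnum]
        have : w0 (1, p.2) = 2 := rfl
        rw [this]; ring
      have e2 : ∑ C : Finset E, χ C * G.deg C (S.branch p) = 4 * k := by
        have h1 : ∀ C : Finset E, χ C * G.deg C (S.branch p) =
            ∑ e : PE, if (src e = p ∨ tgt e = p) then χ C * S.ind C e else 0 := by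
          intro C
          by_cases h0 : χ C = 0
          · simp [h0]
          · rw [(hgood C h0).deg_branch p, Finset.mul_sum]
            apply Finset.sum_congr rfl
            intro e _
            split_ifs <;> simp
        simp only [h1]
        rw [Finset.sum_comm]
        have h2 : ∀ e : PE, (∑ C : Finset E, if (src e = p ∨ tgt e = p) then χ C * S.ind C e else 0)
            = if (src e = p ∨ tgt e = p) then k * w0 e else 0 := by
          intro e
          split_ifs
          · exact hnum e
          · simp
        rw [Finset.sum_congr rfl (fun e _ => h2 e), sum_inc (fun e => k * w0 e)]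
        have wa : ∀ i, w0 (0, i) = 1 := fun _ => rfl
        have wb : ∀ i, w0 (1, i) = 2 := fun _ => rfl
        have wc : ∀ i, w0 (2, i) = 1 := fun _ => rfl
        simp only [wa, wb, wc]
        split_ifs <;> ring
      rw [e1, e2]
    have hall := (Finset.sum_eq_sum_iff_of_le hle).1 hsum
    intro C hC
    have h1 := hall C (mem_univ _)
    exact (Nat.eq_of_mul_eq_mul_left (Nat.pos_of_ne_zero hC) h1).symm
  -- every member contains exactly four spokes
  have hfour : ∀ C, χ C ≠ 0 → ∑ i : Fin 5, S.ind C (1, i) = 4 := by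
    intro C hC
    have hg := hgood C hC
    obtain ⟨f, hf⟩ := (hcirc C hC).1
    obtain ⟨e, i, hi, rfl⟩ := hg.supp f hf
    have h0 := (hg.all hi).1 hf
    refine four_spokes (S.ind C) ?_ ?_ ?_ e ?_
    · intro e
      unfold ind
      split_ifs <;> omega
    · intro i
      have h1 := htight (false, i) C hC
      rw [hg.deg_branch, sum_inc] at h1
      simp only [Bool.false_eq_true, if_false] at h1
      omega
    · intro i
      have h1 := htight (true, i) C hC
      rw [hg.deg_branch, sum_inc] at h1
      simp only [if_true] at h1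
      omega
    · unfold ind
      rw [if_pos h0]
      exact one_ne_zero
  have h1 : ∑ C : Finset E, χ C * ∑ i : Fin 5, S.ind C (1, i) = 10 * k := by
    simp only [Finset.mul_sum]
    rw [Finset.sum_comm]
    simp only [hnum]
    have wb : ∀ i, w0 (1, i) = 2 := fun _ => rfl
    simp only [wb, Finset.sum_const, Finset.card_univ, Fintype.card_fin, smul_eq_mul]
    ring
  have h2 : ∑ C : Finset E, χ C * ∑ i : Fin 5, S.ind C (1, i) = 4 * ∑ C : Finset E, χ C := by
    rw [Finset.mul_sum]
    apply Finset.sum_congr rfl
    intro C _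
    by_cases h0 : χ C = 0
    · simp [h0]
    · rw [hfour C h0]; ring
  obtain ⟨m, hm⟩ := hk
  omega

/-- For odd `k` no graph with property `P_k` contains a subdivision of the Petersen graph. -/
theorem not_propertyP {k : ℕ} (hk : Odd k) (S : PetersenSubdivision G) : ¬ G.PropertyP k := by
  intro h
  exact not_cover hk S (h _ (S.admissible k) (S.eulerian k) fun e => Dvd.intro _ rfl)

end PetersenSubdivision

end Pool.Agent.E8helper5.Pet
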