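import Pool.Agent.E8helper5.PetDefs

set_option autoImplicit false

namespace Pool.Agent.E8helper5.Pet

open Finset

/-! ### Finite checks on the Petersen graph -/

/-- The weight `2` on the spokes and `1` on the other edges of the Petersen graph. -/
def w0 (e : PE) : ℕ := if e.1 = 1 then 2 else 1

/-- `e` has its ends on different sides of `Y`. -/
def sep (Y : PV → Bool) (e : PE) : Bool := Y (src e) != Y (tgt e)

/-- The weight of the cut given by `Y`. -/
def cutw (Y : PV → Bool) : ℕ := ∑ e : PE, if sep Y e then w0 e else 0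

/-- The check for one cut. -/
def chk (a b c d e f g h i j : Bool) : Bool :=
  let s := cond (a != b) 1 0 + cond (b != c) 1 0 + cond (c != d) 1 0 + cond (d != e) 1 0 +
    cond (e != a) 1 0 + (cond (a != f) 2 0 + cond (b != g) 2 0 + cond (c != h) 2 0 +
    cond (d != i) 2 0 + cond (e != j) 2 0) + (cond (f != h) 1 0 + cond (g != i) 1 0 +
    cond (h != j) 1 0 + cond (i != f) 1 0 + cond (j != g) 1 0)
  (s % 2 == 0) &&
    (!(a != b) || decide (2 ≤ s)) && (!(b != c) || decide (2 ≤ s)) &&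
    (!(c != d) || decide (2 ≤ s)) && (!(d != e) || decide (2 ≤ s)) &&
    (!(e != a) || decide (2 ≤ s)) && (!(f != h) || decide (2 ≤ s)) &&
    (!(g != i) || decide (2 ≤ s)) && (!(h != j) || decide (2 ≤ s)) &&
    (!(i != f) || decide (2 ≤ s)) && (!(j != g) || decide (2 ≤ s)) &&
    (!(a != f) || decide (4 ≤ s)) && (!(b != g) || decide (4 ≤ s)) &&
    (!(c != h) || decide (4 ≤ s)) && (!(d != i) || decide (4 ≤ s)) &&
    (!(e != j) || decide (4 ≤ s))

theorem chk_all : ∀ a b c d e f g h i j : Bool, chk a b c d e f g h i j = true := by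
  decide +kernel

theorem cutw_eq (Y : PV → Bool) : cutw Y =
    cond (Y (false, 0) != Y (false, 1)) 1 0 + cond (Y (false, 1) != Y (false, 2)) 1 0 +
    cond (Y (false, 2) != Y (false, 3)) 1 0 + cond (Y (false, 3) != Y (false, 4)) 1 0 +
    cond (Y (false, 4) != Y (false, 0)) 1 0 + (cond (Y (false, 0) != Y (true, 0)) 2 0 +
    cond (Y (false, 1) != Y (true, 1)) 2 0 + cond (Y (false, 2) != Y (true, 2)) 2 0 +
    cond (Y (false, 3) != Y (true, 3)) 2 0 + cond (Y (false, 4) != Y (true, 4)) 2 0) +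
    (cond (Y (true, 0) != Y (true, 2)) 1 0 + cond (Y (true, 1) != Y (true, 3)) 1 0 +
    cond (Y (true, 2) != Y (true, 4)) 1 0 + cond (Y (true, 3) != Y (true, 0)) 1 0 +
    cond (Y (true, 4) != Y (true, 1)) 1 0) := by
  unfold cutw
  rw [Fintype.sum_prod_type, Fin.sum_univ_three]
  simp only [Fin.sum_univ_five]
  have hc : ∀ (b : Bool) (n : ℕ), (if b = true then n else 0) = cond b n 0 := by
    intro b n; cases b <;> rfl
  have wa : ∀ i, w0 (0, i) = 1 := fun _ => rfl
  have wb : ∀ i, w0 (1, i) = 2 := fun _ => rfl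
  have wc : ∀ i, w0 (2, i) = 1 := fun _ => rfl
  simp only [wa, wb, wc, hc, sep, src, tgt]
  rfl

theorem pet_even (Y : PV → Bool) : cutw Y % 2 = 0 := by
  have h := chk_all (Y (false, 0)) (Y (false, 1)) (Y (false, 2)) (Y (false, 3)) (Y (false, 4))
    (Y (true, 0)) (Y (true, 1)) (Y (true, 2)) (Y (true, 3)) (Y (true, 4))
  rw [cutw_eq]
  unfold chk at h
  simp only [Bool.and_eq_true, beq_iff_eq] at h
  tauto

theorem pet_adm (Y : PV → Bool) (e : PE) (he : sep Y e = true) : 2 * w0 e ≤ cutw Y := by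
  have h := chk_all (Y (false, 0)) (Y (false, 1)) (Y (false, 2)) (Y (false, 3)) (Y (false, 4))
    (Y (true, 0)) (Y (true, 1)) (Y (true, 2)) (Y (true, 3)) (Y (true, 4))
  rw [cutw_eq]
  unfold chk at h
  simp only [Bool.and_eq_true, beq_iff_eq, Bool.or_eq_true, Bool.not_eq_true',
    decide_eq_true_eq] at h
  obtain ⟨a, i⟩ := e
  fin_cases a <;> fin_cases i <;> simp only [sep, src, tgt] at he <;>
    simp only [w0] <;> simp at he ⊢ <;> simp_all

/-- A subset of the Petersen graph with degrees `0` and `2` which uses the spoke wherever it uses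
a vertex has no edge or contains exactly four spokes. -/
theorem four_spokes (c : PE → ℕ) (h1 : ∀ e, c e ≤ 1)
    (ho : ∀ i : Fin 5, c (0, i) + c (0, i - 1) = c (1, i))
    (hi : ∀ i : Fin 5, c (2, i) + c (2, i - 2) = c (1, i)) (e0 : PE) (he : c e0 ≠ 0) :
    ∑ i : Fin 5, c (1, i) = 4 := by
  have a0 := ho 0; have a1 := ho 1; have a2 := ho 2; have a3 := ho 3; have a4 := ho 4
  have b0 := hi 0; have b1 := hi 1; have b2 := hi 2; have b3 := hi 3; have b4 := hi 4
  have m0 := h1 (1, 0); have m1 := h1 (1, 1); have m2 := h1 (1, 2)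
  have m3 := h1 (1, 3); have m4 := h1 (1, 4)
  rw [Fin.sum_univ_five]
  have e1 : (0 : Fin 5) - 1 = 4 := rfl
  have e2 : (1 : Fin 5) - 1 = 0 := rfl
  have e3 : (2 : Fin 5) - 1 = 1 := rfl
  have e4 : (3 : Fin 5) - 1 = 2 := rfl
  have e5 : (4 : Fin 5) - 1 = 3 := rfl
  have f1 : (0 : Fin 5) - 2 = 3 := rfl
  have f2 : (1 : Fin 5) - 2 = 4 := rfl
  have f3 : (2 : Fin 5) - 2 = 0 := rfl
  have f4 : (3 : Fin 5) - 2 = 1 := rfl
  have f5 : (4 : Fin 5) - 2 = 2 := rfl
  rw [e1] at a0; rw [e2] at a1; rw [e3] at a2; rw [e4] at a3; rw [e5] at a4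
  rw [f1] at b0; rw [f2] at b1; rw [f3] at b2; rw [f4] at b3; rw [f5] at b4
  have hne : c (0, 0) + c (0, 1) + c (0, 2) + c (0, 3) + c (0, 4) ≠ 0 := by
    intro h0
    apply he
    obtain ⟨a, i⟩ := e0
    fin_cases a <;> fin_cases i <;> simp <;> omega
  have g0 := h1 (0, 0); have g1 := h1 (0, 1); have g2 := h1 (0, 2)
  have g3 := h1 (0, 3); have g4 := h1 (0, 4)
  have k0 : c (0, 0) = 0 ∨ c (0, 0) = 1 := by omega
  have k1 : c (0, 1) = 0 ∨ c (0, 1) = 1 := by omega
  have k2 : c (0, 2) = 0 ∨ c (0, 2) = 1 := by omega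
  have k3 : c (0, 3) = 0 ∨ c (0, 3) = 1 := by omega
  have k4 : c (0, 4) = 0 ∨ c (0, 4) = 1 := by omega
  rcases k0 with k0 | k0 <;> rcases k1 with k1 | k1 <;> rcases k2 with k2 | k2 <;>
    rcases k3 with k3 | k3 <;> rcases k4 with k4 | k4 <;> omega

end Pool.Agent.E8helper5.Pet
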