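import Mathlib

/-!
# Two interleaved tilings of a sequence

`h i` is the depth of the branch at the `i`-th vertex of a diametral path.
-/

set_option autoImplicit false

namespace Pool.Agent.E8helper5.TB

open Finset

/-- No branch of `[a, b)` reaches over the ends of `[a, b)`. -/
def Good (h : ℕ → ℕ) (a b : ℕ) : Prop := ∀ i, a ≤ i → i < b → a + h i ≤ i ∧ i + h i < b

theorem Good.append {h : ℕ → ℕ} {a b c : ℕ} (h1 : Good h a b) (h2 : Good h b c) (hab : a ≤ b)
    (hbc : b ≤ c) : Good h a c := by
  intro i hi hic
  by_cases hb : i < b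
  · have := h1 i hi hb; omega
  · have := h2 i (by omega) hic; omega

/-- Segments of odd length. -/
structure Seg (h : ℕ → ℕ) (a b : ℕ) : Prop where
  lt : a < b
  good : Good h a b
  odd : (b - a) % 2 = 1
  sum : b ≤ a + 2 * ∑ i ∈ Ico a b, h i + 1

/-- Partition into `m` segments. -/
inductive Part (h : ℕ → ℕ) : ℕ → ℕ → ℕ → Prop
  | nil (a : ℕ) : Part h a a 0
  | cons {a b c m : ℕ} : Seg h a b → Part h b c m → Part h a c (m + 1)

theorem Part.le {h : ℕ → ℕ} {a c m : ℕ} (p : Part h a c m) : a ≤ c := by
  induction p with
  | nil => exact le_rfl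
  | cons s _ ih => exact s.lt.le.trans ih

theorem Part.sum {h : ℕ → ℕ} {a c m : ℕ} (p : Part h a c m) :
    c ≤ a + 2 * ∑ i ∈ Ico a c, h i + m := by
  induction p with
  | nil => omega
  | @cons a b c m s p ih =>
    have := s.sum
    have e : ∑ i ∈ Ico a c, h i = ∑ i ∈ Ico a b, h i + ∑ i ∈ Ico b c, h i :=
      (Finset.sum_Ico_consecutive h s.lt.le p.le).symm
    omega

theorem count {h : ℕ → ℕ} {a c : ℕ} (hg : Good h a c)
    (hc : ∀ b, a < b → b < c → (b - a) % 2 = 1 → ∃ i, a ≤ i ∧ i < c ∧ i < b + h i ∧ b ≤ i + h i) :
    (c - a) / 2 ≤ ∑ i ∈ Ico a c, h i := by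
  classical
  set S : Finset ℕ := (Ioo a c).filter (fun b => (b - a) % 2 = 1) with hS
  have h1 : (c - a) / 2 ≤ S.card := by
    have : (Finset.range ((c - a) / 2)).card ≤ S.card := by
      apply Finset.card_le_card_of_injOn (fun t => a + 2 * t + 1)
      · intro t ht
        simp only [Finset.coe_range, Set.mem_Iio] at ht
        simp only [hS, Finset.coe_filter, Finset.mem_Ioo, Set.mem_ofPred_eq]
        omega
      · intro s _ t _ hst
        simp only at hst
        omega
    simpa using this
  have h2 : S ⊆ (Ico a c).biUnion (fun i => S.filter (fun b => i < b + h i ∧ b ≤ i + h i)) := by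
    intro b hb
    have hb' := hb
    simp only [hS, Finset.mem_filter, Finset.mem_Ioo] at hb'
    obtain ⟨i, hi1, hi2, hi3, hi4⟩ := hc b hb'.1.1 hb'.1.2 hb'.2
    rw [Finset.mem_biUnion]
    exact ⟨i, Finset.mem_Ico.mpr ⟨hi1, hi2⟩, Finset.mem_filter.mpr ⟨hb, hi3, hi4⟩⟩
  have h3 : ∀ i ∈ Ico a c, (S.filter (fun b => i < b + h i ∧ b ≤ i + h i)).card ≤ h i := by
    intro i hi
    rw [Finset.mem_Ico] at hi
    have hgi := hg i hi.1 hi.2
    have : (S.filter (fun b => i < b + h i ∧ b ≤ i + h i)).card ≤ (Finset.range (h i)).card := by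
      apply Finset.card_le_card_of_injOn (fun b => (b + h i - i - 1) / 2)
      · intro b hb
        simp only [hS, Finset.coe_filter, Finset.mem_filter, Finset.mem_Ioo, Set.mem_ofPred_eq] at hb
        simp only [Finset.coe_range, Set.mem_Iio]
        omega
      · intro b hb b' hb' e
        simp only [hS, Finset.coe_filter, Finset.mem_filter, Finset.mem_Ioo, Set.mem_ofPred_eq] at hb hb'
        simp only at e
        omega
    simpa using this
  calc (c - a) / 2 ≤ S.card := h1
    _ ≤ _ := Finset.card_le_card h2
    _ ≤ ∑ i ∈ Ico a c, (S.filter (fun b => i < b + h i ∧ b ≤ i + h i)).card :=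
      Finset.card_biUnion_le
    _ ≤ _ := Finset.sum_le_sum h3

theorem exists_part (h : ℕ → ℕ) (n : ℕ) : ∀ a c : ℕ, c - a ≤ n → a < c → Good h a c →
    ((c - a) % 2 = 0 ∧ c ≤ a + 2 * ∑ i ∈ Ico a c, h i) ∨ ∃ m, Part h a c (m + 1) := by
  induction n with
  | zero => intro a c h1 h2; omega
  | succ n ih =>
    intro a c hn hac hg
    by_cases hex : ∃ b, a < b ∧ b < c ∧ (b - a) % 2 = 1 ∧ Good h a b ∧ Good h b c
    · classical
      obtain ⟨b, hb, hmin⟩ : ∃ b, (a < b ∧ b < c ∧ (b - a) % 2 = 1 ∧ Good h a b ∧ Good h b c) ∧
          ∀ b' < b, ¬ (a < b' ∧ b' < c ∧ (b' - a) % 2 = 1 ∧ Good h a b' ∧ Good h b' c) :=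
        ⟨Nat.find hex, Nat.find_spec hex, fun b' hb' => Nat.find_min hex hb'⟩
      obtain ⟨hab, hbc, hodd, hg1, hg2⟩ := hb
      have hcount : (b - a) / 2 ≤ ∑ i ∈ Ico a b, h i := by
        apply count hg1
        intro b' h1 h2 h3
        have := hmin b' h2
        by_contra hcon
        push Not at hcon
        apply this
        refine ⟨h1, by omega, h3, ?_, ?_⟩
        · intro i hi1 hi2
          have := hg1 i hi1 (by omega)
          have := hcon i hi1 (by omega) (by omega)
          omega
        · intro i hi1 hi2
          by_cases hib : i < b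
          · have := hg1 i (by omega) hib
            by_cases h5 : i < b' + h i
            · have := hcon i (by omega) hib h5
              omega
            · omega
          · have := hg2 i (by omega) hi2
            omega
      have hseg : Seg h a b := ⟨hab, hg1, hodd, by omega⟩
      rcases ih b c (by omega) hbc hg2 with ⟨he, hs⟩ | ⟨m, hm⟩
      · right
        refine ⟨0, Part.cons ⟨hac, hg, by omega, ?_⟩ (Part.nil c)⟩
        have e : ∑ i ∈ Ico a c, h i = ∑ i ∈ Ico a b, h i + ∑ i ∈ Ico b c, h i :=
          (Finset.sum_Ico_consecutive h hab.le hbc.le).symm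
        omega
      · right
        exact ⟨m + 1, Part.cons hseg hm⟩
    · have hcount : (c - a) / 2 ≤ ∑ i ∈ Ico a c, h i := by
        apply count hg
        intro b h1 h2 h3
        by_contra hcon
        push Not at hcon
        apply hex
        refine ⟨b, h1, h2, h3, ?_, ?_⟩
        · intro i hi1 hi2
          have := hg i hi1 (by omega)
          have := hcon i hi1 (by omega) (by omega)
          omega
        · intro i hi1 hi2
          have := hg i (by omega) hi2
          by_cases h5 : i < b + h i
          · have := hcon i (by omega) hi2 h5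
            omega
          · omega
      by_cases hpar : (c - a) % 2 = 0
      · left; exact ⟨hpar, by omega⟩
      · right
        exact ⟨0, Part.cons ⟨hac, hg, by omega, by omega⟩ (Part.nil c)⟩

/-- Position `i` with its branch hears the ball with centre `j`. -/
def Hear (h f : ℕ → ℕ) (i j : ℕ) : Prop := 0 < f j ∧ h i + i ≤ f j + j ∧ h i + j ≤ f j + i

/-- add a ball -/
def add (f : ℕ → ℕ) (j r : ℕ) : ℕ → ℕ := fun x => if x = j then r else f x

theorem sum_add {f : ℕ → ℕ} {j r c : ℕ} (hj : j < c) (hf : f j = 0) :
    ∑ x ∈ range c, add f j r x = ∑ x ∈ range c, f x + r := by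
  have e : ∀ x, add f j r x = f x + if x = j then r else 0 := by
    intro x
    unfold add
    split_ifs with hx
    · subst hx; omega
    · rfl
  simp_rw [e, Finset.sum_add_distrib]
  congr 1
  rw [Finset.sum_ite_eq' (range c) j]
  simp [hj]

theorem Hear.add {h f : ℕ → ℕ} {i j j' r : ℕ} (hj : f j' = 0) (hh : Hear h f i j) :
    Hear h (add f j' r) i j := by
  have hne : j ≠ j' := by
    rintro rfl
    have := hh.1
    omega
  unfold Hear TB.add at *
  simpa [hne] using hh

theorem hear_add {h f : ℕ → ℕ} {i j r : ℕ} (hr : 0 < r) (h1 : h i + i ≤ r + j)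
    (h2 : h i + j ≤ r + i) : Hear h (add f j r) i j := by
  unfold Hear add
  simpa using ⟨hr, h1, h2⟩

theorem sol (h : ℕ → ℕ) (n : ℕ) : ∀ m, m ≤ n → ∀ a q1 q2 c : ℕ, Seg h a q1 → Seg h q1 q2 →
    Part h q2 c m →
    ∃ f : ℕ → ℕ, (∀ j, f j ≠ 0 → a + q2 ≤ 2 * j ∧ j < c) ∧
      (∀ i, a ≤ i → i < c → ∃ j, Hear h f i j) ∧
      (∀ i, q2 ≤ i → i < c → ∃ j k, j ≠ k ∧ Hear h f i j ∧ Hear h f i k) ∧
      6 * ∑ x ∈ range c, f x + 3 * (q2 - a) + 2 * (m + 2) ≤ 6 * (c - a) + 8 := by
  induction n with
  | zero =>
    intro m hm a q1 q2 c s1 s2 p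
    obtain rfl : m = 0 := by omega
    cases p
    have g : Good h a q2 := s1.good.append s2.good s1.lt.le s2.lt.le
    have l1 := s1.lt; have l2 := s2.lt; have o1 := s1.odd; have o2 := s2.odd
    set R := (q2 - a) / 2 with hR
    have hR2 : q2 = a + 2 * R := by omega
    refine ⟨add (fun _ => 0) (a + R) R, ?_, ?_, ?_, ?_⟩
    · intro j hj
      unfold add at hj
      split_ifs at hj with hx
      · omega
      · exact absurd rfl hj
    · intro i h1 h2
      have := g i h1 h2
      exact ⟨a + R, hear_add (by omega) (by omega) (by omega)⟩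
    · intro i h1 h2; omega
    · rw [sum_add (by omega) rfl]
      simp
      omega
  | succ n ih =>
    intro m hm a q1 q2 c s1 s2 p
    have l1 := s1.lt; have l2 := s2.lt; have o1 := s1.odd; have o2 := s2.odd
    have g : Good h a q2 := s1.good.append s2.good s1.lt.le s2.lt.le
    cases p with
    | nil => exact ih 0 (by omega) a q1 q2 q2 s1 s2 (Part.nil _)
    | @cons _ q3 _ m3 s3 p =>
    have l3 := s3.lt; have o3 := s3.odd
    have g3 : Good h a q3 := g.append s3.good (by omega) l3.le
    cases p with
    | nil =>
      set R := (c - a - 1) / 2 with hR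
      set S := (c - q2 - 1) / 2 with hS
      have hR2 : c = a + 2 * R + 1 := by omega
      have hS2 : c = q2 + 2 * S + 1 := by omega
      have hne : q2 + S ≠ a + R := by omega
      have hz : add (fun _ => 0) (a + R) R (q2 + S) = 0 := by simp [add, hne]
      refine ⟨add (add (fun _ => 0) (a + R) R) (q2 + S) (S + 1), ?_, ?_, ?_, ?_⟩
      · intro j hj
        unfold add at hj
        split_ifs at hj with hx hx
        · omega
        · omega
        · exact absurd rfl hj
      · intro i h1 h2
        have := g3 i h1 h2
        exact ⟨a + R, (hear_add (by omega) (by omega) (by omega)).add hz⟩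
      · intro i h1 h2
        have := g3 i (by omega) h2
        have := s3.good i h1 h2
        exact ⟨a + R, q2 + S, hne.symm, (hear_add (by omega) (by omega) (by omega)).add hz,
          hear_add (by omega) (by omega) (by omega)⟩
      · rw [sum_add (by omega) hz, sum_add (by omega) rfl]
        simp
        omega
    | @cons _ q4 _ m4 s4 p =>
    have l4 := s4.lt; have o4 := s4.odd
    have g4 : Good h a q4 := g3.append s4.good (by omega) l4.le
    have g24 : Good h q2 q4 := s3.good.append s4.good l3.le l4.le
    cases p with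
    | nil =>
      set R := (c - a) / 2 with hR
      set S := (c - q2) / 2 with hS
      have hR2 : c = a + 2 * R := by omega
      have hS2 : c = q2 + 2 * S := by omega
      have hne : q2 + S ≠ a + R := by omega
      have hz : add (fun _ => 0) (a + R) R (q2 + S) = 0 := by simp [add, hne]
      refine ⟨add (add (fun _ => 0) (a + R) R) (q2 + S) S, ?_, ?_, ?_, ?_⟩
      · intro j hj
        unfold add at hj
        split_ifs at hj with hx hx
        · omega
        · omega
        · exact absurd rfl hj
      · intro i h1 h2
        have := g4 i h1 h2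
        exact ⟨a + R, (hear_add (by omega) (by omega) (by omega)).add hz⟩
      · intro i h1 h2
        have := g4 i (by omega) h2
        have := g24 i h1 h2
        exact ⟨a + R, q2 + S, hne.symm, (hear_add (by omega) (by omega) (by omega)).add hz,
          hear_add (by omega) (by omega) (by omega)⟩
      · rw [sum_add (by omega) hz, sum_add (by omega) rfl]
        simp
        omega
    | @cons _ q5 _ m5 s5 p =>
    have l5 := s5.lt; have o5 := s5.odd
    have lc := p.le
    have g25 : Good h q2 q5 := g24.append s5.good (by omega) l5.le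
    obtain ⟨f, hf1, hf2, hf3, hf4⟩ := ih m5 (by omega) q3 q4 q5 c s4 s5 p
    set R := (q3 - a - 1) / 2 with hR
    set S := (q5 - q2 - 1) / 2 with hS
    have hR2 : q3 = a + 2 * R + 1 := by omega
    have hS2 : q5 = q2 + 2 * S + 1 := by omega
    have hne : q2 + S ≠ a + R := by omega
    have hz1 : f (a + R) = 0 := by
      by_contra hcon
      have := hf1 _ hcon
      omega
    have hz2 : f (q2 + S) = 0 := by
      by_contra hcon
      have := hf1 _ hcon
      omega
    have hz : add f (a + R) R (q2 + S) = 0 := by simp [add, hne, hz2]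
    refine ⟨add (add f (a + R) R) (q2 + S) S, ?_, ?_, ?_, ?_⟩
    · intro j hj
      unfold add at hj
      split_ifs at hj with hx hx
      · omega
      · omega
      · have := hf1 j hj; omega
    · intro i h1 h2
      by_cases hi : i < q3
      · have := g3 i h1 hi
        exact ⟨a + R, (hear_add (by omega) (by omega) (by omega)).add hz⟩
      · obtain ⟨j, hj⟩ := hf2 i (by omega) h2
        exact ⟨j, (hj.add hz1).add hz⟩
    · intro i h1 h2
      by_cases hi : i < q3
      · have := g3 i (by omega) hi
        have := g25 i h1 (by omega)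
        exact ⟨a + R, q2 + S, hne.symm, (hear_add (by omega) (by omega) (by omega)).add hz,
          hear_add (by omega) (by omega) (by omega)⟩
      · by_cases hi5 : i < q5
        · obtain ⟨j, hj⟩ := hf2 i (by omega) h2
          have := g25 i h1 hi5
          refine ⟨j, q2 + S, ?_, (hj.add hz1).add hz, hear_add (by omega) (by omega) (by omega)⟩
          rintro rfl
          have := hj.1
          omega
        · obtain ⟨j, k, hjk, hj, hk⟩ := hf3 i (by omega) h2
          exact ⟨j, k, hjk, (hj.add hz1).add hz, (hk.add hz1).add hz⟩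
    · rw [sum_add (by omega) hz, sum_add (by omega) hz1]
      omega

/-- **The combinatorial lemma.** Depths `h i ≤ min i (c - 1 - i)` of branches at the positions
`i < c`: there are balls with distinct centres in `[0, c)` such that each position together with its
branch is in two of them, with sum of the radii at most `(2 (c + ∑ h) + 4) / 3`. -/
theorem exists_balls (h : ℕ → ℕ) (c : ℕ) (hc : 2 ≤ c) (hh : ∀ i < c, h i ≤ i ∧ i + h i < c) :
    ∃ f : ℕ → ℕ, (∀ i < c, ∃ j k, j < c ∧ k < c ∧ j ≠ k ∧ Hear h f i j ∧ Hear h f i k) ∧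
      3 * ∑ x ∈ range c, f x ≤ 2 * (c + ∑ x ∈ range c, h x) + 4 := by
  have hgood : Good h 0 c := fun i _ hi => by have := hh i hi; omega
  have e0 : ∑ i ∈ Ico 0 c, h i = ∑ i ∈ range c, h i := by rw [Finset.range_eq_Ico]
  by_cases hbig : c ≤ 2 * ∑ x ∈ range c, h x + 4
  · -- two balls covering everything
    set R := c / 2 with hR
    set S := (c - 1) / 2 with hS
    -- centres `S` and `S + 1` or `R`, `R - 1`
    by_cases hpar : c % 2 = 0
    · have hz : add (fun _ => 0) R R (R - 1) = 0 := by
        have : R - 1 ≠ R := by omega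
        simp [add, this]
      refine ⟨add (add (fun _ => 0) R R) (R - 1) R, ?_, ?_⟩
      · intro i hi
        have := hh i hi
        exact ⟨R, R - 1, by omega, by omega, by omega,
          (hear_add (by omega) (by omega) (by omega)).add hz,
          hear_add (by omega) (by omega) (by omega)⟩
      · rw [sum_add (by omega) hz, sum_add (by omega) rfl]
        simp
        omega
    · have hz : add (fun _ => 0) R R (R + 1) = 0 := by
        simp [add]
      refine ⟨add (add (fun _ => 0) R R) (R + 1) (R + 1), ?_, ?_⟩
      · intro i hi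
        have := hh i hi
        exact ⟨R, R + 1, by omega, by omega, by omega,
          (hear_add (by omega) (by omega) (by omega)).add hz,
          hear_add (by omega) (by omega) (by omega)⟩
      · rw [sum_add (by omega) hz, sum_add (by omega) rfl]
        simp
        omega
  · rcases exists_part h c 0 c (by omega) (by omega) hgood with ⟨_, hs⟩ | ⟨m, p⟩
    · omega
    · have hsum := p.sum
      rw [e0] at hsum
      cases p with
      | @cons _ q1 _ _ s1 p =>
      cases p with
      | nil => omega
      | @cons _ q2 _ m s2 p =>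
      have lc := p.le
      have l1 := s1.lt; have l2 := s2.lt; have o1 := s1.odd; have o2 := s2.odd
      have g : Good h 0 q2 := s1.good.append s2.good s1.lt.le s2.lt.le
      obtain ⟨f, hf1, hf2, hf3, hf4⟩ := sol h m m le_rfl 0 q1 q2 c s1 s2 p
      set R := q2 / 2 with hR
      have hR2 : q2 = 2 * R := by omega
      have hz : f (R - 1) = 0 := by
        by_contra hcon
        have := hf1 _ hcon
        omega
      have hlt : ∀ {i j}, Hear h f i j → j < c := fun {i j} hj => (hf1 j (by have := hj.1; omega)).2
      refine ⟨add f (R - 1) R, ?_, ?_⟩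
      · intro i hi
        by_cases hi2 : i < q2
        · obtain ⟨j, hj⟩ := hf2 i (by omega) hi
          have := g i (by omega) hi2
          refine ⟨j, R - 1, hlt hj, by omega, ?_, hj.add hz,
            hear_add (by omega) (by omega) (by omega)⟩
          rintro rfl
          have := hj.1
          omega
        · obtain ⟨j, k, hjk, hj, hk⟩ := hf3 i (by omega) hi
          exact ⟨j, k, hlt hj, hlt hk, hjk, hj.add hz, hk.add hz⟩
      · rw [sum_add (by omega) hz]
        omega

end Pool.Agent.E8helper5.TB
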