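import Pool.Agent.E8helper5.TBSeq

/-!
# Dominating 2-broadcasts of trees and connected graphs

Definitions and the proof of `γ_{b_2}(G) ≤ (2 n + 4) / 3`.
-/

set_option autoImplicit false

namespace Pool.Agent.E8helper5.TB

open Finset

section Defs

variable {V : Type*}

/-- `u` hears the broadcasting vertex `v` of the broadcast `f`. -/
def Hears (G : SimpleGraph V) (f : V → ℕ) (u v : V) : Prop := 0 < f v ∧ G.dist u v ≤ f v

/-- `f` is a dominating 2-broadcast of the (connected) graph `G`: a function
`f : V → {0, 1, …, diam G}` such that every vertex hears at least two distinct vertices of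
`{v | f v > 0}`. -/
structure IsDominatingTwoBroadcast (G : SimpleGraph V) (f : V → ℕ) : Prop where
  le_diam : ∀ v, f v ≤ G.diam
  hears_two : ∀ u, ∃ v₁ v₂, v₁ ≠ v₂ ∧ Hears G f u v₁ ∧ Hears G f u v₂

/-- The cost of a broadcast. -/
def cost [Fintype V] (f : V → ℕ) : ℕ := ∑ v, f v

/-- The 2-broadcast domination number: the least cost of a dominating 2-broadcast. -/
noncomputable def twoBroadcastNumber [Fintype V] (G : SimpleGraph V) : ℕ :=
  sInf {c | ∃ f : V → ℕ, IsDominatingTwoBroadcast G f ∧ cost f = c}

end Defs

variable {V : Type*} {T : SimpleGraph V}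

theorem eq_penultimate (hT : T.IsTree) {w x a : V} (ha : T.Adj x a)
    (da : T.dist w a + 1 = T.dist w x) {p : T.Walk w x} (hp : p.IsPath) : a = p.penultimate := by
  classical
  obtain ⟨q, hq, hq'⟩ := hT.connected.exists_path_of_dist w a
  have hx : x ∉ q.support := by
    intro hx
    have h1 : T.dist w x ≤ (q.takeUntil x hx).length := SimpleGraph.dist_le _
    have h2 : (q.takeUntil x hx).length ≤ q.length := q.length_takeUntil_le_length hx
    omega
  have := hT.isAcyclic.mem_support_of_ne_mem_support_of_adj_of_isPath hp hq ha hx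
  exact hT.isAcyclic.eq_penultimate_of_adj_end hp ha this

theorem parent_unique (hT : T.IsTree) {w x a b : V} (ha : T.Adj x a) (hb : T.Adj x b)
    (da : T.dist w a + 1 = T.dist w x) (db : T.dist w b + 1 = T.dist w x) : a = b := by
  obtain ⟨p, hp, _⟩ := hT.connected.exists_path_of_dist w x
  rw [eq_penultimate hT ha da hp, eq_penultimate hT hb db hp]

/-- Along a path the distance to `w` increases as soon as it does not decrease. -/
theorem dist_mono (hT : T.IsTree) (w : V) (Q : ℕ → V) (l : ℕ)
    (hadj : ∀ k < l, T.Adj (Q k) (Q (k + 1))) (hne : ∀ k, k + 2 ≤ l → Q k ≠ Q (k + 2))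
    (h0 : 1 ≤ l → T.dist w (Q 0) ≤ T.dist w (Q 1)) :
    ∀ k ≤ l, T.dist w (Q k) = T.dist w (Q 0) + k := by
  intro k
  induction k using Nat.strong_induction_on with
  | _ k ih =>
    intro hk
    match k, ih, hk with
    | 0, _, _ => rfl
    | 1, _, hk =>
      have := hT.dist_eq_dist_add_one_of_adj w (hadj 0 (by omega))
      have := h0 hk
      simp only [zero_add] at *
      omega
    | k + 2, ih, hk =>
      have h1 := ih (k + 1) (by omega) (by omega)
      have h2 := ih k (by omega) (by omega)
      rcases hT.dist_eq_dist_add_one_of_adj w (hadj (k + 1) (by omega)) with h | h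
      · exfalso
        apply hne k hk
        exact parent_unique hT (w := w) (hadj k (by omega)).symm (hadj (k + 1) (by omega))
          (by omega) (by simp only [show k + 1 + 1 = k + 2 from rfl] at *; omega)
      · simp only [show k + 1 + 1 = k + 2 from rfl] at *
        omega

/-- A geodesic `P 0, …, P d`. -/
structure Geo (T : SimpleGraph V) (P : ℕ → V) (d : ℕ) : Prop where
  adj : ∀ k < d, T.Adj (P k) (P (k + 1))
  dist : T.dist (P 0) (P d) = d

theorem Geo.dist_le (hT : T.Connected) {P : ℕ → V} {d : ℕ} (g : Geo T P d) (i k : ℕ)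
    (h : i + k ≤ d) : T.dist (P i) (P (i + k)) ≤ k := by
  induction k with
  | zero => simp
  | succ k ih =>
    have h1 := ih (by omega)
    have h2 : T.dist (P (i + k)) (P (i + k + 1)) = 1 :=
      SimpleGraph.dist_eq_one_iff_adj.mpr (g.adj _ (by omega))
    have h3 := hT.dist_triangle (u := P i) (v := P (i + k)) (w := P (i + k + 1))
    have h4 : i + (k + 1) = i + k + 1 := rfl
    rw [h4]
    omega

theorem Geo.dist_eq (hT : T.Connected) {P : ℕ → V} {d : ℕ} (g : Geo T P d) (i k : ℕ)
    (h : i + k ≤ d) : T.dist (P i) (P (i + k)) = k := by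
  have h1 := g.dist_le hT i k h
  have h2 := g.dist_le hT 0 i (by omega)
  have h3 := g.dist_le hT (i + k) (d - (i + k)) (by omega)
  have h4 := hT.dist_triangle (u := P 0) (v := P i) (w := P d)
  have h5 := hT.dist_triangle (u := P i) (v := P (i + k)) (w := P d)
  have h6 := g.dist
  rw [show i + k + (d - (i + k)) = d by omega] at h3
  rw [zero_add] at h2
  omega

theorem Geo.inj (hT : T.Connected) {P : ℕ → V} {d : ℕ} (g : Geo T P d) {i j : ℕ} (hi : i ≤ d)
    (hj : j ≤ d) (h : P i = P j) : i = j := by
  rcases le_total i j with hij | hij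
  · have := g.dist_eq hT i (j - i) (by omega)
    rw [show i + (j - i) = j by omega, h, SimpleGraph.dist_self] at this
    omega
  · have := g.dist_eq hT j (i - j) (by omega)
    rw [show j + (i - j) = i by omega, h, SimpleGraph.dist_self] at this
    omega

theorem Geo.exists_proj (hT : T.IsTree) {P : ℕ → V} {d : ℕ} (g : Geo T P d) (w : V) :
    ∃ i ≤ d, ∀ j ≤ d, T.dist w (P j) = T.dist w (P i) + ((i - j) + (j - i)) := by
  obtain ⟨i, hi, hmin⟩ := Finset.exists_min_image (Finset.range (d + 1))
    (fun i => T.dist w (P i)) ⟨0, by simp⟩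
  simp only [Finset.mem_range] at hi hmin
  refine ⟨i, by omega, ?_⟩
  have hr := dist_mono hT w (fun k => P (i + k)) (d - i)
    (fun k hk => g.adj (i + k) (by omega))
    (fun k hk h => by
      have := g.inj hT.connected (by omega) (by omega) h
      omega)
    (fun h => by
      simp only [add_zero]
      exact hmin (i + 1) (by omega))
  have hl := dist_mono hT w (fun k => P (i - k)) i
    (fun k hk => by
      have := g.adj (i - (k + 1)) (by omega)
      rw [show i - (k + 1) + 1 = i - k by omega] at this
      exact this.symm)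
    (fun k hk h => by
      have := g.inj hT.connected (by omega) (by omega) h
      omega)
    (fun h => by
      simp only [Nat.sub_zero]
      exact hmin (i - 1) (by omega))
  intro j hj
  rcases le_total i j with hij | hij
  · have := hr (j - i) (by omega)
    simp only [add_zero] at this
    rw [show i + (j - i) = j by omega] at this
    omega
  · have := hl (i - j) (by omega)
    simp only [Nat.sub_zero] at this
    rw [show i - (i - j) = j by omega] at this
    omega

/-- The positions and depths of the branches of a tree along a diametral path. -/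
theorem exists_depths [Fintype V] (hT : T.IsTree) {P : ℕ → V} {d : ℕ} (g : Geo T P d)
    (hd : ∀ u v, T.dist u v ≤ d) :
    ∃ (π : V → ℕ) (h : ℕ → ℕ), (∀ w, π w ≤ d) ∧
      (∀ w, ∀ j ≤ d, T.dist w (P j) ≤ h (π w) + ((π w - j) + (j - π w))) ∧
      (∀ i < d + 1, h i ≤ i ∧ i + h i < d + 1) ∧
      (d + 1) + ∑ i ∈ range (d + 1), h i ≤ Fintype.card V := by
  classical
  choose π hπ hdist using g.exists_proj hT
  set F : ℕ → Finset V := fun i => Finset.univ.filter (fun w => π w = i) with hF
  set h : ℕ → ℕ := fun i => (F i).sup (fun w => T.dist w (P i)) with hh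
  have hle : ∀ w, T.dist w (P (π w)) ≤ h (π w) := by
    intro w
    exact Finset.le_sup (f := fun v => T.dist v (P (π w))) (by simp [hF])
  have hself : ∀ i ≤ d, π (P i) = i := by
    intro i hi
    have := hdist (P i) i hi
    rw [SimpleGraph.dist_self] at this
    omega
  refine ⟨π, h, hπ, ?_, ?_, ?_⟩
  · intro w j hj
    rw [hdist w j hj]
    have := hle w
    omega
  · intro i hi
    have key : h i ≤ min i (d - i) := by
      apply Finset.sup_le
      intro w hw
      simp only [hF, Finset.mem_filter, Finset.mem_univ, true_and] at hw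
      subst hw
      have h1 := hdist w 0 (by omega)
      have h2 := hdist w d le_rfl
      have h3 := hd w (P 0)
      have h4 := hd w (P d)
      omega
    omega
  · have hcard : ∀ i ∈ range (d + 1), 1 + h i ≤ (F i).card := by
      intro i hi
      rw [Finset.mem_range] at hi
      have hne : (F i).Nonempty := ⟨P i, by simp [hF, hself i (by omega)]⟩
      obtain ⟨u, hu, hmax⟩ := Finset.exists_mem_eq_sup (F i) hne (fun w => T.dist w (P i))
      have hu' : π u = i := by simpa [hF] using hu
      have hui : T.dist u (P i) = h i := hmax.symm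
      obtain ⟨q, hq⟩ := hT.connected.exists_walk_length_eq_dist u (P i)
      have hql : q.length = h i := by rw [hq, hui]
      have h1 : ∀ t ≤ h i, T.dist u (q.getVert t) ≤ t ∧ T.dist (q.getVert t) (P i) ≤ h i - t := by
        intro t ht
        constructor
        · have := SimpleGraph.dist_le (q.take t)
          rw [SimpleGraph.Walk.take_length] at this
          omega
        · have := SimpleGraph.dist_le (q.drop t)
          rw [SimpleGraph.Walk.drop_length] at this
          omega
      have h2 : ∀ t ≤ h i, T.dist u (q.getVert t) = t ∧ T.dist (q.getVert t) (P i) = h i - t := by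
        intro t ht
        have := h1 t ht
        have := hT.connected.dist_triangle (u := u) (v := q.getVert t) (w := P i)
        omega
      have h3 : ∀ t ≤ h i, π (q.getVert t) = i := by
        intro t ht
        have e1 := h2 t ht
        have e2 := hdist (q.getVert t) i (by omega)
        have e3 := hdist u (π (q.getVert t)) (hπ _)
        rw [hu'] at e3
        have e4 := hT.connected.dist_triangle (u := u) (v := q.getVert t)
          (w := P (π (q.getVert t)))
        omega
      have : (Finset.range (1 + h i)).card ≤ (F i).card := by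
        apply Finset.card_le_card_of_injOn (fun t => q.getVert t)
        · intro t ht
          simp only [Finset.coe_range, Set.mem_Iio] at ht
          simp only [hF, Finset.coe_filter, Finset.mem_univ, true_and, Set.mem_ofPred_eq]
          exact h3 t (by omega)
        · intro t ht s hs hts
          simp only [Finset.coe_range, Set.mem_Iio] at ht hs
          have e1 := (h2 t (by omega)).1
          have e2 := (h2 s (by omega)).1
          simp only at hts
          rw [hts, e2] at e1
          exact e1.symm
      simpa using this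
    calc (d + 1) + ∑ i ∈ range (d + 1), h i = ∑ i ∈ range (d + 1), (1 + h i) := by
          rw [Finset.sum_add_distrib]; simp
      _ ≤ ∑ i ∈ range (d + 1), (F i).card := Finset.sum_le_sum hcard
      _ = (Finset.univ : Finset V).card := by
          rw [Finset.card_eq_sum_card_fiberwise (f := π) (t := range (d + 1))]
          intro w _
          simpa using Nat.lt_succ_of_le (hπ w)
      _ = Fintype.card V := rfl

theorem exists_geo [Fintype V] [Nontrivial V] (hT : T.IsTree) :
    ∃ (P : ℕ → V) (d : ℕ), 1 ≤ d ∧ Geo T P d ∧ ∀ u v, T.dist u v ≤ d := by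
  have htop : T.ediam ≠ ⊤ := SimpleGraph.connected_iff_ediam_ne_top.mp hT.connected
  obtain ⟨u, v, huv⟩ := SimpleGraph.exists_dist_eq_diam (G := T)
  obtain ⟨p, hp⟩ := hT.connected.exists_walk_length_eq_dist u v
  refine ⟨p.getVert, T.diam, ?_, ⟨?_, ?_⟩, fun a b => SimpleGraph.dist_le_diam htop⟩
  · have := SimpleGraph.diam_ne_zero_of_ediam_ne_top htop
    omega
  · intro k hk
    exact p.adj_getVert_succ (by omega)
  · rw [SimpleGraph.Walk.getVert_zero, ← huv, ← hp, SimpleGraph.Walk.getVert_length, hp]

/-- **Upper bound for the 2-broadcast domination number of a connected graph.** -/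
theorem exists_broadcast [Fintype V] [Nontrivial V] {G : SimpleGraph V} (hG : G.Connected) :
    ∃ f : V → ℕ, IsDominatingTwoBroadcast G f ∧ 3 * cost f ≤ 2 * Fintype.card V + 4 := by
  classical
  obtain ⟨T, hTG, hT⟩ := hG.exists_isTree_le
  obtain ⟨P, d, hd1, g, hd⟩ := exists_geo hT
  obtain ⟨π, h, hπ, hdist, hh, hsum⟩ := exists_depths hT g hd
  obtain ⟨f, hf, hcost⟩ := exists_balls h (d + 1) (by omega) hh
  have htop : G.ediam ≠ ⊤ := SimpleGraph.connected_iff_ediam_ne_top.mp hG
  have hdiam : 1 ≤ G.diam := by
    have := SimpleGraph.diam_ne_zero_of_ediam_ne_top htop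
    omega
  set F : V → ℕ := fun v => ∑ j ∈ range (d + 1), if P j = v then f j else 0 with hF
  have hFP : ∀ j < d + 1, f j ≤ F (P j) := by
    intro j hj
    have : (if P j = P j then f j else 0) ≤ F (P j) :=
      Finset.single_le_sum (f := fun k => if P k = P j then f k else 0)
        (fun k _ => Nat.zero_le _) (Finset.mem_range.mpr hj)
    simpa using this
  have hFsum : ∑ v, F v = ∑ j ∈ range (d + 1), f j := by
    rw [hF, Finset.sum_comm]
    apply Finset.sum_congr rfl
    intro j _
    simp
  refine ⟨fun v => min (F v) G.diam, ⟨fun v => min_le_right _ _, ?_⟩, ?_⟩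
  · intro u
    obtain ⟨j, k, hj, hk, hjk, h1, h2⟩ := hf (π u) (Nat.lt_succ_of_le (hπ u))
    have key : ∀ j, j < d + 1 → Hear h f (π u) j →
        Hears G (fun v => min (F v) G.diam) u (P j) := by
      intro j hj ⟨p1, p2, p3⟩
      have q1 := hFP j hj
      have q2 := hdist u j (by omega)
      have q3 : G.dist u (P j) ≤ T.dist u (P j) :=
        SimpleGraph.Reachable.dist_anti hTG (hT.connected u (P j))
      have q4 : G.dist u (P j) ≤ G.diam := SimpleGraph.dist_le_diam htop
      constructor
      · show 0 < min (F (P j)) G.diam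
        rw [lt_min_iff]
        omega
      · show G.dist u (P j) ≤ min (F (P j)) G.diam
        rw [le_min_iff]
        omega
    exact ⟨P j, P k, fun e => hjk (g.inj hT.connected (by omega) (by omega) e), key j hj h1,
      key k hk h2⟩
  · have : cost (fun v => min (F v) G.diam) ≤ ∑ v, F v :=
      Finset.sum_le_sum fun v _ => min_le_left _ _
    omega

theorem twoBroadcastNumber_spec [Fintype V] [Nontrivial V] {G : SimpleGraph V}
    (hG : G.Connected) :
    (∃ f : V → ℕ, IsDominatingTwoBroadcast G f ∧ cost f = twoBroadcastNumber G) ∧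
      3 * twoBroadcastNumber G ≤ 2 * Fintype.card V + 4 := by
  obtain ⟨f, hf, hc⟩ := exists_broadcast hG
  have hne : {c | ∃ f : V → ℕ, IsDominatingTwoBroadcast G f ∧ cost f = c}.Nonempty :=
    ⟨_, f, hf, rfl⟩
  refine ⟨Nat.sInf_mem hne, ?_⟩
  have : twoBroadcastNumber G ≤ cost f := Nat.sInf_le ⟨f, hf, rfl⟩
  omega

end Pool.Agent.E8helper5.TB
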